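import Mathlib

/-!
# Polyvector fields on the Springer resolution of `SL_m`

`G = SL_m(ℂ)`, `B` = upper triangular matrices in `G`, `𝔫` = strictly upper triangular matrices,
`Ñ = G ×_B 𝔫`, that is the quotient of `G × 𝔫` by `(g, ν) b = (g b, b⁻¹ ν b)`, `b ∈ B`.

* The tangent space of `Ñ` at the class of `(g, ν)` is `TS m ν = (𝔰𝔩_m × 𝔫) / orb m ν`: the pair
  `(y, μ)` is the derivative of the curve `(g exp(t y), ν + t μ)` and `orb m ν` is the tangent space
  of the orbit of `B`, `{(y, ν y - y ν) | y ∈ 𝔰𝔩_m upper triangular}`.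
* A polyvector field (section of `⋀^j T Ñ`) is a function `val g ν ∈ ⋀^j (TS m ν)` on `G × 𝔫` which
  is regular (it lifts to a polynomial map from `G × 𝔫` to `⋀^j (𝔰𝔩_m × 𝔫)`) and `B`-equivariant.
* The group `G` acts by `(x s) g ν = s (x⁻¹ g) ν`; the torus `ℂ^*` acts by the dilations
  `(g, ν) ↦ (g, c² ν)`, normalised such that linear functions on the fibres have weight `2` and
  constant vertical vector fields have weight `-2`.
-/

set_option autoImplicit false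

namespace MP3b

open Matrix

/-- The matrices of size `m` over `ℂ`. -/
abbrev Gl (m : ℕ) := Matrix (Fin m) (Fin m) ℂ

/-- The group `SL_m(ℂ)`. -/
abbrev SLm (m : ℕ) := Matrix.SpecialLinearGroup (Fin m) ℂ

/-- Upper triangular matrices. -/
def Upper {m : ℕ} (y : Gl m) : Prop := ∀ i j : Fin m, j < i → y i j = 0

/-- The Lie algebra `𝔰𝔩_m` of `SL_m`: the matrices of trace `0`. -/
def slm (m : ℕ) : Submodule ℂ (Gl m) where
  carrier := {y | y.trace = 0}
  add_mem' := by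
    intro a b ha hb
    have ha' : a.trace = 0 := ha
    have hb' : b.trace = 0 := hb
    change (a + b).trace = 0
    rw [trace_add, ha', hb', add_zero]
  zero_mem' := by
    change (0 : Gl m).trace = 0
    exact trace_zero _ _
  smul_mem' := by
    intro c a ha
    have ha' : a.trace = 0 := ha
    change (c • a).trace = 0
    rw [trace_smul, ha', smul_zero]

/-- The Lie algebra `𝔫` of the strictly upper triangular matrices. -/
def nil (m : ℕ) : Submodule ℂ (Gl m) where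
  carrier := {ν | ∀ i j : Fin m, j ≤ i → ν i j = 0}
  add_mem' := by
    intro a b ha hb i j hij
    rw [Matrix.add_apply, ha i j hij, hb i j hij, add_zero]
  zero_mem' := by
    intro i j _
    rfl
  smul_mem' := by
    intro c a ha i j hij
    rw [Matrix.smul_apply, ha i j hij, smul_zero]

/-- The tangent space of the orbit of `B` through `(g, ν)`: the pairs `(y, ν y - y ν)` with
`y ∈ 𝔰𝔩_m` upper triangular. -/
def orb (m : ℕ) (ν : nil m) : Submodule ℂ (slm m × nil m) where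
  carrier := {p | Upper (p.1 : Gl m) ∧
    (p.2 : Gl m) = (ν : Gl m) * (p.1 : Gl m) - (p.1 : Gl m) * (ν : Gl m)}
  add_mem' := by
    rintro a b ⟨ha, ha'⟩ ⟨hb, hb'⟩
    refine ⟨fun i j hij => ?_, ?_⟩
    · change (a.1 : Gl m) i j + (b.1 : Gl m) i j = 0
      rw [ha i j hij, hb i j hij, add_zero]
    · change (a.2 : Gl m) + (b.2 : Gl m) = (ν : Gl m) * ((a.1 : Gl m) + (b.1 : Gl m)) -
        ((a.1 : Gl m) + (b.1 : Gl m)) * (ν : Gl m)
      rw [ha', hb', mul_add, add_mul]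
      abel
  zero_mem' := by
    refine ⟨fun i j _ => rfl, ?_⟩
    change (0 : Gl m) = (ν : Gl m) * (0 : Gl m) - (0 : Gl m) * (ν : Gl m)
    rw [mul_zero, zero_mul, sub_zero]
  smul_mem' := by
    rintro c a ⟨ha, ha'⟩
    refine ⟨fun i j hij => ?_, ?_⟩
    · change c * (a.1 : Gl m) i j = 0
      rw [ha i j hij, mul_zero]
    · change c • (a.2 : Gl m) = (ν : Gl m) * (c • (a.1 : Gl m)) - (c • (a.1 : Gl m)) * (ν : Gl m)
      rw [ha', mul_smul_comm, smul_mul_assoc, smul_sub]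

/-- The tangent space of the Springer resolution `Ñ = G ×_B 𝔫` at the class of `(g, ν)`, in the left
trivialisation of the tangent bundle of `G`. -/
abbrev TS (m : ℕ) (ν : nil m) := (slm m × nil m) ⧸ orb m ν

/-- The conjugation `y ↦ b⁻¹ y b` of matrices. -/
def cj {m : ℕ} (b : SLm m) : Gl m →ₗ[ℂ] Gl m :=
  LinearMap.mulLeft ℂ ((b⁻¹ : SLm m) : Gl m) ∘ₗ LinearMap.mulRight ℂ (b : Gl m)

theorem cj_apply {m : ℕ} (b : SLm m) (y : Gl m) :
    cj b y = ((b⁻¹ : SLm m) : Gl m) * (y * (b : Gl m)) := rfl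

theorem inv_mul_coe {m : ℕ} (b : SLm m) : ((b⁻¹ : SLm m) : Gl m) * (b : Gl m) = 1 := by
  rw [← Matrix.SpecialLinearGroup.coe_mul, inv_mul_cancel, Matrix.SpecialLinearGroup.coe_one]

theorem mul_inv_coe {m : ℕ} (b : SLm m) : (b : Gl m) * ((b⁻¹ : SLm m) : Gl m) = 1 := by
  rw [← Matrix.SpecialLinearGroup.coe_mul, mul_inv_cancel, Matrix.SpecialLinearGroup.coe_one]

theorem cj_mul {m : ℕ} (b : SLm m) (x y : Gl m) : cj b (x * y) = cj b x * cj b y := by
  rw [cj_apply, cj_apply, cj_apply]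
  calc ((b⁻¹ : SLm m) : Gl m) * (x * y * (b : Gl m))
      = ((b⁻¹ : SLm m) : Gl m) * (x * 1 * y * (b : Gl m)) := by rw [mul_one]
    _ = ((b⁻¹ : SLm m) : Gl m) * (x * ((b : Gl m) * ((b⁻¹ : SLm m) : Gl m)) * y * (b : Gl m)) := by
        rw [mul_inv_coe]
    _ = ((b⁻¹ : SLm m) : Gl m) * (x * (b : Gl m)) *
        (((b⁻¹ : SLm m) : Gl m) * (y * (b : Gl m))) := by
        simp only [mul_assoc]

theorem Upper.blockTriangular {m : ℕ} {y : Gl m} (h : Upper y) : y.BlockTriangular id :=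
  fun i j hij => h i j hij

theorem Upper.mul {m : ℕ} {x y : Gl m} (hx : Upper x) (hy : Upper y) : Upper (x * y) :=
  fun i j hij => (hx.blockTriangular.mul hy.blockTriangular) hij

theorem Upper.inv {m : ℕ} {b : SLm m} (hb : Upper (b : Gl m)) : Upper ((b⁻¹ : SLm m) : Gl m) := by
  have h1 : ((b⁻¹ : SLm m) : Gl m) = ((b : Gl m))⁻¹ := by
    symm
    apply Matrix.inv_eq_left_inv
    exact inv_mul_coe b
  have : Invertible (b : Gl m) := ⟨((b⁻¹ : SLm m) : Gl m), inv_mul_coe b, mul_inv_coe b⟩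
  intro i j hij
  rw [h1]
  exact (Matrix.blockTriangular_inv_of_blockTriangular hb.blockTriangular) hij

theorem nil_mul_upper {m : ℕ} {ν u : Gl m} (hν : ν ∈ nil m) (hu : Upper u) : ν * u ∈ nil m := by
  intro i j hij
  rw [Matrix.mul_apply]
  refine Finset.sum_eq_zero fun k _ => ?_
  rcases lt_or_ge i k with h | h
  · rw [hu k j (lt_of_le_of_lt hij h), mul_zero]
  · rw [hν i k h, zero_mul]

theorem upper_mul_nil {m : ℕ} {ν u : Gl m} (hν : ν ∈ nil m) (hu : Upper u) : u * ν ∈ nil m := by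
  intro i j hij
  rw [Matrix.mul_apply]
  refine Finset.sum_eq_zero fun k _ => ?_
  rcases lt_or_ge k i with h | h
  · rw [hu i k h, zero_mul]
  · rw [hν k j (hij.trans h), mul_zero]

theorem cj_nil {m : ℕ} (b : SLm m) (hb : Upper (b : Gl m)) (ν : Gl m) (hν : ν ∈ nil m) :
    cj b ν ∈ nil m :=
  upper_mul_nil (nil_mul_upper hν hb) hb.inv

theorem cj_upper {m : ℕ} (b : SLm m) (hb : Upper (b : Gl m)) (y : Gl m) (hy : Upper y) :
    Upper (cj b y) := hb.inv.mul (hy.mul hb)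

theorem cj_trace {m : ℕ} (b : SLm m) (y : Gl m) : (cj b y).trace = y.trace := by
  rw [cj_apply, Matrix.trace_mul_comm, mul_assoc, mul_inv_coe, mul_one]

/-- The conjugation `y ↦ b⁻¹ y b` on `𝔰𝔩_m`. -/
def cjS {m : ℕ} (b : SLm m) : slm m →ₗ[ℂ] slm m :=
  (cj b).restrict fun y hy => by
    change (cj b y).trace = 0
    rw [cj_trace]
    exact hy

/-- The conjugation `ν ↦ b⁻¹ ν b` on `𝔫` for `b ∈ B`. -/
def cjN {m : ℕ} (b : SLm m) (hb : Upper (b : Gl m)) : nil m →ₗ[ℂ] nil m :=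
  (cj b).restrict fun ν hν => cj_nil b hb ν hν

/-- The conjugation `(y, μ) ↦ (b⁻¹ y b, b⁻¹ μ b)`. -/
def cjT {m : ℕ} (b : SLm m) (hb : Upper (b : Gl m)) : slm m × nil m →ₗ[ℂ] slm m × nil m :=
  (cjS b).prodMap (cjN b hb)

theorem coe_cjS {m : ℕ} (b : SLm m) (y : slm m) : ((cjS b y : slm m) : Gl m) = cj b y := rfl

theorem coe_cjN {m : ℕ} (b : SLm m) (hb : Upper (b : Gl m)) (ν : nil m) :
    ((cjN b hb ν : nil m) : Gl m) = cj b ν := rfl

theorem orb_le_cjT {m : ℕ} (b : SLm m) (hb : Upper (b : Gl m)) (ν : nil m) :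
    orb m ν ≤ (orb m (cjN b hb ν)).comap (cjT b hb) := by
  rintro ⟨y, μ⟩ ⟨hy, hμ⟩
  refine ⟨cj_upper b hb _ hy, ?_⟩
  change cj b (μ : Gl m) = cj b (ν : Gl m) * cj b (y : Gl m) - cj b (y : Gl m) * cj b (ν : Gl m)
  change (μ : Gl m) = _ at hμ
  rw [hμ, map_sub, cj_mul, cj_mul]

/-- The derivative of the right translation by `b ∈ B`: the map
`TS m ν → TS m (b⁻¹ ν b)`, `(y, μ) ↦ (b⁻¹ y b, b⁻¹ μ b)`. It is the identification of the tangent
space of `Ñ` at the class of `(g, ν)` with the one at the class of `(g b, b⁻¹ ν b)`. -/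
def tcj {m : ℕ} (b : SLm m) (hb : Upper (b : Gl m)) (ν : nil m) : TS m ν →ₗ[ℂ] TS m (cjN b hb ν) :=
  (orb m ν).mapQ (orb m (cjN b hb ν)) (cjT b hb) (orb_le_cjT b hb ν)

/-- The map `(y, μ) ↦ (y, c μ)`. -/
def dil {m : ℕ} (c : ℂ) : slm m × nil m →ₗ[ℂ] slm m × nil m :=
  (LinearMap.id : slm m →ₗ[ℂ] slm m).prodMap (c • (LinearMap.id : nil m →ₗ[ℂ] nil m))

theorem orb_le_dil {m : ℕ} (c : ℂ) (ν : nil m) : orb m ν ≤ (orb m (c • ν)).comap (dil c) := by
  rintro ⟨y, μ⟩ ⟨hy, hμ⟩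
  refine ⟨hy, ?_⟩
  change (μ : Gl m) = _ at hμ
  change c • (μ : Gl m) = (c • (ν : Gl m)) * (y : Gl m) - (y : Gl m) * (c • (ν : Gl m))
  rw [hμ, smul_mul_assoc, mul_smul_comm, smul_sub]

/-- The derivative of the dilation `(g, ν) ↦ (g, c ν)`. -/
def tdil {m : ℕ} (c : ℂ) (ν : nil m) : TS m ν →ₗ[ℂ] TS m (c • ν) :=
  (orb m ν).mapQ (orb m (c • ν)) (dil c) (orb_le_dil c ν)

/-- A map from `SL_m × 𝔫` to `⋀^j (𝔰𝔩_m × 𝔫)` is polynomial if all its coordinates (equivalently, all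
its compositions with linear functionals) are polynomials in the entries of `g` and `ν`. -/
def IsPoly {m j : ℕ} (p : SLm m → nil m → ⋀[ℂ]^j (slm m × nil m)) : Prop :=
  ∀ l : ⋀[ℂ]^j (slm m × nil m) →ₗ[ℂ] ℂ,
    ∃ P : MvPolynomial ((Fin m × Fin m) ⊕ (Fin m × Fin m)) ℂ, ∀ (g : SLm m) (ν : nil m),
      l (p g ν) = MvPolynomial.eval
        (Sum.elim (fun q => (g : Gl m) q.1 q.2) (fun q => (ν : Gl m) q.1 q.2)) P

/-- The `j`-polyvector fields on the Springer resolution `Ñ = SL_m ×_B 𝔫`: the global sections of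
`⋀^j T Ñ`, as regular `B`-equivariant sections over `SL_m × 𝔫`. -/
structure PolyVec (m j : ℕ) where
  /-- the value at the class of `(g, ν)` -/
  val : SLm m → (ν : nil m) → ⋀[ℂ]^j (TS m ν)
  /-- regularity -/
  regular : ∃ p : SLm m → nil m → ⋀[ℂ]^j (slm m × nil m), IsPoly p ∧
    ∀ g ν, val g ν = exteriorPower.map j (orb m ν).mkQ (p g ν)
  /-- equivariance under the Borel subgroup -/
  equivariant : ∀ (b : SLm m) (hb : Upper (b : Gl m)) (g : SLm m) (ν : nil m),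
    val (g * b) (cjN b hb ν) = exteriorPower.map j (tcj b hb ν) (val g ν)

/-- `s` has weight `k` for the dilation action of `ℂ^*`, normalised such that linear functions on the
fibres have weight `2` and constant vertical vector fields have weight `-2`. -/
def PolyVec.HasWeight {m j : ℕ} (s : PolyVec m j) (k : ℤ) : Prop :=
  ∀ c : ℂ, c ≠ 0 → ∀ (g : SLm m) (ν : nil m),
    s.val g (c ^ 2 • ν) = c ^ k • exteriorPower.map j (tdil (c ^ 2) ν) (s.val g ν)

/-- The result: `SL_m` acts trivially on the space of the `j`-polyvector fields of weight `-j`, for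
all `m ≥ 2` and all `j`. -/
def MainStmt : Prop :=
  ∀ m j : ℕ, 2 ≤ m → ∀ s : PolyVec m j, s.HasWeight (-j) → ∀ (x g : SLm m) (ν : nil m),
    s.val (x⁻¹ * g) ν = s.val g ν

end MP3b
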