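import Pool.Agent.Lib.MP_3b3418_ag.Defs

/-!
# Part A: linear algebra around the principal `sl_2` of `gl_m`

Notation: `e = ee m`, `f = ff m`, `h = hh m`; `adm x y = x y - y x`; `vv m d i = (ad e)^i (f^d)`, a
basis of `gl_m` for `d < m`, `i ≤ 2 d`; `Bf a b = tr ([e, a] b)`, a skew form whose radical is the
centraliser of `e`; `tw B a b = (x ↦ B a x • b + B b x • a)`.
-/

set_option autoImplicit false

namespace MP3b

open Matrix

/-- The regular nilpotent element `e = ∑ E_(i,i+1)`. -/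
def ee (m : ℕ) : Gl m := Matrix.of fun i j => if (j : ℕ) = (i : ℕ) + 1 then 1 else 0

/-- `f = ∑ i (m - i) E_(i,i-1)` (rows and columns numbered from `0`). -/
def ff (m : ℕ) : Gl m :=
  Matrix.of fun i j => if (i : ℕ) = (j : ℕ) + 1 then ((i : ℕ) : ℂ) * ((m : ℂ) - ((i : ℕ) : ℂ)) else 0

/-- `h = diag (m - 1, m - 3, ..., 1 - m)`. -/
def hh (m : ℕ) : Gl m := Matrix.diagonal fun i => (m : ℂ) - 1 - 2 * ((i : ℕ) : ℂ)

/-- `adm x y = x y - y x`. -/
def adm {m : ℕ} (x : Gl m) : Module.End ℂ (Gl m) := LinearMap.mulLeft ℂ x - LinearMap.mulRight ℂ x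

theorem adm_apply {m : ℕ} (x y : Gl m) : adm x y = x * y - y * x := rfl

/-- `vv m d i = (ad e)^i (f^d)`. -/
def vv (m d i : ℕ) : Gl m := (adm (ee m) ^ i) (ff m ^ d)

theorem vv_zero (m d : ℕ) : vv m d 0 = ff m ^ d := rfl

theorem vv_succ (m d i : ℕ) : vv m d (i + 1) = adm (ee m) (vv m d i) := by
  unfold vv
  rw [pow_succ', Module.End.mul_apply]

/-- The index set of the basis `vv m d i`. -/
abbrev Ix (m : ℕ) := Σ d : Fin m, Fin (2 * (d : ℕ) + 1)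

/-- `D` is the operator `f'`: `D (vv d i) = i (2 d - i) vv d (i - 1)` for `d < m`, `i ≤ 2 d`. -/
structure IsFp (m : ℕ) (D : Module.End ℂ (Gl m)) : Prop where
  zero : ∀ d, d < m → D (vv m d 0) = 0
  succ : ∀ d, d < m → ∀ i, i < 2 * d →
    D (vv m d (i + 1)) = (((i : ℂ) + 1) * (2 * (d : ℂ) - ((i : ℂ) + 1))) • vv m d i

/-- `tr (a b)` as a bilinear form. -/
def trf (m : ℕ) : Gl m →ₗ[ℂ] Gl m →ₗ[ℂ] ℂ :=
  LinearMap.mk₂ ℂ (fun a b => (a * b).trace)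
    (fun a a' b => by rw [add_mul, trace_add]) (fun c a b => by rw [smul_mul_assoc, trace_smul])
    (fun a b b' => by rw [mul_add, trace_add]) (fun c a b => by rw [mul_smul_comm, trace_smul])

/-- The form `Bf a b = tr ([e, a] b)`. -/
def Bf (m : ℕ) : Gl m →ₗ[ℂ] Gl m →ₗ[ℂ] ℂ := trf m ∘ₗ adm (ee m)

theorem Bf_apply {m : ℕ} (a b : Gl m) : Bf m a b = ((ee m * a - a * ee m) * b).trace := rfl

/-- `tw B a b = (x ↦ B a x • b + B b x • a)`. -/
def tw {V : Type} [AddCommGroup V] [Module ℂ V] (B : V →ₗ[ℂ] V →ₗ[ℂ] ℂ) (a b : V) :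
    Module.End ℂ V := (B a).smulRight b + (B b).smulRight a

theorem tw_apply {V : Type} [AddCommGroup V] [Module ℂ V] (B : V →ₗ[ℂ] V →ₗ[ℂ] ℂ) (a b x : V) :
    tw B a b x = B a x • b + B b x • a := rfl

/-- `A` is skew for `B`. -/
def Skew {V : Type} [AddCommGroup V] [Module ℂ V] (B : V →ₗ[ℂ] V →ₗ[ℂ] ℂ) (A : Module.End ℂ V) :
    Prop := ∀ x y, B (A x) y = -B x (A y)

/-- The properties of the Lie algebra `𝔰 ⊆ gl_m × End (gl_m)` of part A. -/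
structure IsS (m : ℕ) (D : Module.End ℂ (Gl m))
    (S : Submodule ℂ (Gl m × Module.End ℂ (Gl m))) : Prop where
  brk : ∀ p ∈ S, ∀ q ∈ S, (p.1 * q.1 - q.1 * p.1, p.2 * q.2 - q.2 * p.2) ∈ S
  pow : ∀ k, 1 ≤ k → (ee m ^ k, adm (ee m ^ k)) ∈ S
  fp : (ff m, D) ∈ S
  cen : ∀ A : Module.End ℂ (Gl m), (∀ x, ee m * A x = A x * ee m) → ((0 : Gl m), A) ∈ S

end MP3b
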