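import Pool.Agent.Lib.MP_3b3418_ag.DefsA

/-!
# Part B: polynomial functions, the Lie algebra `𝔰`, the data attached to a polyvector field
-/

set_option autoImplicit false

namespace MP3b

open Matrix

/-- Polynomials in the entries of a matrix. -/
abbrev Pl (m : ℕ) := MvPolynomial (Fin m × Fin m) ℂ

/-- The value of a polynomial at a matrix. -/
noncomputable def evm {m : ℕ} (g : Gl m) : Pl m →ₐ[ℂ] ℂ := MvPolynomial.aeval fun q => g q.1 q.2

/-- The derivation `X ↦ X y` of the polynomial ring in the entries of the generic matrix `X`. -/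
noncomputable def Rd {m : ℕ} (y : Gl m) : Derivation ℂ (Pl m) (Pl m) :=
  MvPolynomial.mkDerivation ℂ fun q => ∑ k, y k q.2 • MvPolynomial.X (q.1, k)

theorem Rd_X {m : ℕ} (y : Gl m) (q : Fin m × Fin m) :
    Rd y (MvPolynomial.X q) = ∑ k, y k q.2 • MvPolynomial.X (q.1, k) :=
  MvPolynomial.mkDerivation_X _ _ _

theorem Rd_add {m : ℕ} (y z : Gl m) (P : Pl m) : Rd (y + z) P = Rd y P + Rd z P := by
  have h : Rd (y + z) = Rd y + Rd z := by
    refine MvPolynomial.derivation_ext fun q => ?_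
    rw [Derivation.add_apply, Rd_X, Rd_X, Rd_X, ← Finset.sum_add_distrib]
    refine Finset.sum_congr rfl fun k _ => ?_
    rw [Matrix.add_apply, add_smul]
  rw [h, Derivation.add_apply]

theorem Rd_smul {m : ℕ} (c : ℂ) (y : Gl m) (P : Pl m) : Rd (c • y) P = c • Rd y P := by
  have h : Rd (c • y) = c • Rd y := by
    refine MvPolynomial.derivation_ext fun q => ?_
    rw [Derivation.smul_apply, Rd_X, Rd_X, Finset.smul_sum]
    refine Finset.sum_congr rfl fun k _ => ?_
    rw [Matrix.smul_apply, smul_assoc]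
  rw [h, Derivation.smul_apply]

theorem Rd_zero {m : ℕ} (P : Pl m) : Rd (0 : Gl m) P = 0 := by
  have h := Rd_smul (0 : ℂ) (0 : Gl m) P
  rwa [zero_smul, zero_smul] at h

/-- The multilinear maps from `(gl_m)^j` to the polynomial ring. -/
abbrev Wm (m j : ℕ) := MultilinearMap ℂ (fun _ : Fin j => Gl m) (Pl m)

/-- `act A Ψ (x_1, ..., x_j) = ∑_k Ψ (..., A x_k, ...)`. -/
noncomputable def act {m j : ℕ} (A : Module.End ℂ (Gl m)) : Wm m j →ₗ[ℂ] Wm m j :=
  ∑ k : Fin j, MultilinearMap.compLinearMapₗ fun l => if l = k then A else LinearMap.id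

theorem act_apply {m j : ℕ} (A : Module.End ℂ (Gl m)) (Ψ : Wm m j) (x : Fin j → Gl m) :
    act A Ψ x = ∑ k : Fin j, Ψ (Function.update x k (A (x k))) := by
  unfold act
  rw [LinearMap.sum_apply, _root_.sum_apply]
  refine Finset.sum_congr rfl fun k _ => ?_
  change Ψ (fun l => (if l = k then A else LinearMap.id) (x l)) = _
  congr 1
  funext l
  by_cases h : l = k
  · subst h
    rw [if_pos rfl, Function.update_self]
  · rw [if_neg h, Function.update_of_ne h]
    rfl

theorem act_add {m j : ℕ} (A A' : Module.End ℂ (Gl m)) (Ψ : Wm m j) :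
    act (A + A') Ψ = act A Ψ + act A' Ψ := by
  refine MultilinearMap.ext fun x => ?_
  rw [_root_.add_apply, act_apply, act_apply, act_apply, ← Finset.sum_add_distrib]
  refine Finset.sum_congr rfl fun k _ => ?_
  rw [LinearMap.add_apply, MultilinearMap.map_update_add]

theorem act_smul {m j : ℕ} (c : ℂ) (A : Module.End ℂ (Gl m)) (Ψ : Wm m j) :
    act (c • A) Ψ = c • act A Ψ := by
  refine MultilinearMap.ext fun x => ?_
  rw [_root_.smul_apply, act_apply, act_apply, Finset.smul_sum]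
  refine Finset.sum_congr rfl fun k _ => ?_
  rw [LinearMap.smul_apply, MultilinearMap.map_update_smul]

/-- The derivation `Rd y` applied to the values. -/
noncomputable def RW {m j : ℕ} (y : Gl m) : Wm m j →ₗ[ℂ] Wm m j :=
  (Rd y).toLinearMap.compMultilinearMapₗ ℂ

theorem RW_apply {m j : ℕ} (y : Gl m) (Ψ : Wm m j) (x : Fin j → Gl m) :
    RW y Ψ x = Rd y (Ψ x) := rfl

/-- The multilinear maps whose values vanish on `SL_m`. -/
def JJ (m j : ℕ) : Submodule ℂ (Wm m j) where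
  carrier := {Ψ | ∀ (x : Fin j → Gl m) (g : SLm m), evm (g : Gl m) (Ψ x) = 0}
  add_mem' := by
    intro a b ha hb x g
    rw [_root_.add_apply, map_add, ha x g, hb x g, add_zero]
  zero_mem' := by
    intro x g
    rw [_root_.zero_apply, map_zero]
  smul_mem' := by
    intro c a ha x g
    rw [_root_.smul_apply, map_smul, ha x g, smul_zero]

/-- The multilinear maps whose values vanish on `SL_m` as soon as one argument commutes with `e`. -/
def W0 (m j : ℕ) : Submodule ℂ (Wm m j) where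
  carrier := {Ψ | ∀ (x : Fin j → Gl m) (g : SLm m) (k : Fin j), ee m * x k = x k * ee m →
    evm (g : Gl m) (Ψ x) = 0}
  add_mem' := by
    intro a b ha hb x g k hk
    rw [_root_.add_apply, map_add, ha x g k hk, hb x g k hk, add_zero]
  zero_mem' := by
    intro x g k _
    rw [_root_.zero_apply, map_zero]
  smul_mem' := by
    intro c a ha x g k hk
    rw [_root_.smul_apply, map_smul, ha x g k hk, smul_zero]

/-- The Lie algebra `𝔰` of the pairs `(y, A)` with `R_y Φ = act A Φ` on `SL_m`, `tr y = 0`. -/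
def SS {m j : ℕ} (Φ : Wm m j) : Submodule ℂ (Gl m × Module.End ℂ (Gl m)) where
  carrier := {p | p.1.trace = 0 ∧ RW p.1 Φ - act p.2 Φ ∈ JJ m j}
  add_mem' := by
    rintro a b ⟨ha, ha'⟩ ⟨hb, hb'⟩
    refine ⟨?_, ?_⟩
    · change (a.1 + b.1).trace = 0
      rw [trace_add, ha, hb, add_zero]
    · have h : RW (a + b).1 Φ - act (a + b).2 Φ =
          (RW a.1 Φ - act a.2 Φ) + (RW b.1 Φ - act b.2 Φ) := by
        have h1 : RW (a + b).1 Φ = RW a.1 Φ + RW b.1 Φ := by
          exact MultilinearMap.ext fun x => Rd_add _ _ _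
        rw [h1, Prod.snd_add, act_add]
        abel
      rw [h]
      exact (JJ m j).add_mem ha' hb'
  zero_mem' := by
    refine ⟨trace_zero _ _, ?_⟩
    have h : RW (0 : Gl m × Module.End ℂ (Gl m)).1 Φ - act (0 : Gl m × Module.End ℂ (Gl m)).2 Φ =
        0 := by
      have h1 : RW (0 : Gl m × Module.End ℂ (Gl m)).1 Φ = 0 := by
        exact MultilinearMap.ext fun x => Rd_zero _
      have h2 : act (0 : Gl m × Module.End ℂ (Gl m)).2 Φ = 0 := by
        have h3 := act_smul (0 : ℂ) (0 : Module.End ℂ (Gl m)) Φ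
        rwa [zero_smul, zero_smul] at h3
      rw [h1, h2, sub_zero]
    rw [h]
    exact (JJ m j).zero_mem
  smul_mem' := by
    rintro c a ⟨ha, ha'⟩
    refine ⟨?_, ?_⟩
    · change (c • a.1).trace = 0
      rw [trace_smul, ha, smul_zero]
    · have h : RW (c • a).1 Φ - act (c • a).2 Φ = c • (RW a.1 Φ - act a.2 Φ) := by
        have h1 : RW (c • a).1 Φ = c • RW a.1 Φ := by
          exact MultilinearMap.ext fun x => Rd_smul _ _ _
        rw [h1, Prod.smul_snd, act_smul, smul_sub]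
      rw [h]
      exact (JJ m j).smul_mem c ha'

/-- The alternating form of the values of a polyvector field at `(g, e)`. -/
structure IsPhi {m j : ℕ} (Φ : (Gl m) [⋀^Fin j]→ₗ[ℂ] Pl m) : Prop where
  /-- arguments commuting with `e` -/
  cen : ∀ (x : Fin j → Gl m) (k : Fin j), ee m * x k = x k * ee m → Φ x = 0
  /-- equivariance under the centraliser of `e` in `B` -/
  bor : ∀ b : SLm m, Upper (b : Gl m) → ee m * (b : Gl m) = (b : Gl m) * ee m →
    ∀ (g : SLm m) (x : Fin j → Gl m),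
      evm ((g * b : SLm m) : Gl m) (Φ x) = evm (g : Gl m) (Φ fun k => cj b⁻¹ (x k))
  /-- equivariance under the torus: `t = diag (c^(m-1), c^(m-3), ..., c^(1-m))` -/
  tor : ∀ c : ℂ, c ≠ 0 → ∀ t : SLm m,
    (t : Gl m) = Matrix.diagonal (fun i : Fin m => c ^ ((m : ℤ) - 1 - 2 * ((i : ℕ) : ℤ))) →
    ∀ (g : SLm m) (x : Fin j → Gl m),
      evm ((g * t : SLm m) : Gl m) (Φ x) = evm (g : Gl m) (Φ fun k => c • cj t⁻¹ (x k))

/-- The linear functional `(y, μ) ↦ tr (α y) + tr (β μ)` on `𝔰𝔩_m × 𝔫`. -/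
def cov {m : ℕ} : Gl m × Gl m →ₗ[ℂ] Module.Dual ℂ (slm m × nil m) :=
  LinearMap.mk₂ ℂ (fun (ξ : Gl m × Gl m) (p : slm m × nil m) =>
      (ξ.1 * (p.1 : Gl m)).trace + (ξ.2 * (p.2 : Gl m)).trace)
    (fun ξ ξ' p => by
      rw [Prod.fst_add, Prod.snd_add, add_mul, add_mul, trace_add, trace_add]
      ring)
    (fun c ξ p => by
      rw [Prod.smul_fst, Prod.smul_snd, smul_mul_assoc, smul_mul_assoc, trace_smul, trace_smul,
        smul_add])
    (fun ξ p p' => by
      rw [Prod.fst_add, Prod.snd_add, Submodule.coe_add, Submodule.coe_add, mul_add, mul_add,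
        trace_add, trace_add]
      ring)
    (fun c ξ p => by
      rw [Prod.smul_fst, Prod.smul_snd, Submodule.coe_smul, Submodule.coe_smul, mul_smul_comm,
        mul_smul_comm, trace_smul, trace_smul, smul_add])

theorem cov_apply {m : ℕ} (ξ : Gl m × Gl m) (p : slm m × nil m) :
    cov ξ p = (ξ.1 * (p.1 : Gl m)).trace + (ξ.2 * (p.2 : Gl m)).trace := rfl

/-- `ξ` defines a cotangent vector at `(g, ν)`: it vanishes on `orb m ν`. -/
def Van {m : ℕ} (ν : nil m) (ξ : Gl m × Gl m) : Prop := ∀ p ∈ orb m ν, cov ξ p = 0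

/-- Polynomials in the entries of two matrices. -/
abbrev Pl2 (m : ℕ) := MvPolynomial ((Fin m × Fin m) ⊕ (Fin m × Fin m)) ℂ

/-- The value at a pair of matrices. -/
noncomputable def ev2 {m : ℕ} (g ν : Gl m) : Pl2 m →ₐ[ℂ] ℂ :=
  MvPolynomial.aeval (Sum.elim (fun q => g q.1 q.2) fun q => ν q.1 q.2)

/-- The properties of the polynomial alternating form `Q` attached to a polyvector field of
weight `k`. -/
structure IsPD {m j : ℕ} (k : ℤ) (Q : (Gl m × Gl m) [⋀^Fin j]→ₗ[ℂ] Pl2 m) : Prop where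
  zero : ∀ (ξ : Fin j → Gl m × Gl m) (i : Fin j), cov (ξ i) = 0 → Q ξ = 0
  equi : ∀ (b : SLm m) (hb : Upper (b : Gl m)) (g : SLm m) (ν : nil m) (ξ : Fin j → Gl m × Gl m),
    (∀ i, Van (cjN b hb ν) (ξ i)) →
    ev2 ((g * b : SLm m) : Gl m) (cj b ν) (Q ξ) =
      ev2 (g : Gl m) (ν : Gl m) (Q fun i => (cj b⁻¹ (ξ i).1, cj b⁻¹ (ξ i).2))
  wt : ∀ (c : ℂ), c ≠ 0 → ∀ (g : SLm m) (ν : nil m) (ξ : Fin j → Gl m × Gl m),
    (∀ i, Van (c ^ 2 • ν) (ξ i)) →
    ev2 (g : Gl m) (c ^ 2 • (ν : Gl m)) (Q ξ) =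
      c ^ k * ev2 (g : Gl m) (ν : Gl m) (Q fun i => ((ξ i).1, c ^ 2 • (ξ i).2))

/-- The substitution `g = X`, `ν = e`. -/
noncomputable def sube (m : ℕ) : Pl2 m →ₐ[ℂ] Pl m :=
  MvPolynomial.aeval (Sum.elim MvPolynomial.X fun q => MvPolynomial.C (ee m q.1 q.2))

/-- The form `Φ` attached to `Q`: `Φ x = Q (([e, x_k], x_k)_k)` at `ν = e`. -/
noncomputable def phi {m j : ℕ} (Q : (Gl m × Gl m) [⋀^Fin j]→ₗ[ℂ] Pl2 m) : (Gl m) [⋀^Fin j]→ₗ[ℂ] Pl m :=
  (sube m).toLinearMap.compAlternatingMap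
    (Q.compLinearMap ((adm (ee m)).prod (LinearMap.id : Gl m →ₗ[ℂ] Gl m)))

end MP3b
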