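import Pool.Agent.Lib.MP_3b3418_ag.T.AA
import Pool.Agent.Lib.MP_3b3418_ag.T.Act
import Pool.Agent.Lib.MP_3b3418_ag.T.All
import Pool.Agent.Lib.MP_3b3418_ag.T.Bas
import Pool.Agent.Lib.MP_3b3418_ag.T.Bsk
import Pool.Agent.Lib.MP_3b3418_ag.T.Cen
import Pool.Agent.Lib.MP_3b3418_ag.T.Cnj
import Pool.Agent.Lib.MP_3b3418_ag.T.Cons
import Pool.Agent.Lib.MP_3b3418_ag.T.Cov
import Pool.Agent.Lib.MP_3b3418_ag.T.Cst
import Pool.Agent.Lib.MP_3b3418_ag.T.Dev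
import Pool.Agent.Lib.MP_3b3418_ag.T.Dml
import Pool.Agent.Lib.MP_3b3418_ag.T.Dns
import Pool.Agent.Lib.MP_3b3418_ag.T.Dua
import Pool.Agent.Lib.MP_3b3418_ag.T.Efp
import Pool.Agent.Lib.MP_3b3418_ag.T.Epw
import Pool.Agent.Lib.MP_3b3418_ag.T.Fff
import Pool.Agent.Lib.MP_3b3418_ag.T.Gen
import Pool.Agent.Lib.MP_3b3418_ag.T.Jpr
import Pool.Agent.Lib.MP_3b3418_ag.T.Lia
import Pool.Agent.Lib.MP_3b3418_ag.T.Lme
import Pool.Agent.Lib.MP_3b3418_ag.T.Lmt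
import Pool.Agent.Lib.MP_3b3418_ag.T.Mai
import Pool.Agent.Lib.MP_3b3418_ag.T.Mtw
import Pool.Agent.Lib.MP_3b3418_ag.T.Nlp
import Pool.Agent.Lib.MP_3b3418_ag.T.Nz
import Pool.Agent.Lib.MP_3b3418_ag.T.Pai
import Pool.Agent.Lib.MP_3b3418_ag.T.Pdd
import Pool.Agent.Lib.MP_3b3418_ag.T.Phi
import Pool.Agent.Lib.MP_3b3418_ag.T.Pow
import Pool.Agent.Lib.MP_3b3418_ag.T.Reg
import Pool.Agent.Lib.MP_3b3418_ag.T.Slt
import Pool.Agent.Lib.MP_3b3418_ag.T.Str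
import Pool.Agent.Lib.MP_3b3418_ag.T.Tau
import Pool.Agent.Lib.MP_3b3418_ag.T.Tor
import Pool.Agent.Lib.MP_3b3418_ag.T.Tri
import Pool.Agent.Lib.MP_3b3418_ag.T.Twa
import Pool.Agent.Lib.MP_3b3418_ag.T.Utt
import Pool.Agent.Lib.MP_3b3418_ag.T.Van
import Pool.Agent.Lib.MP_3b3418_ag.T.Xd
import Pool.Agent.Lib.MP_3b3418_ag.T.Zn
import Pool.Agent.Lib.MP_3b3418_ag.T.Zr
import Pool.Agent.Lib.MP_3b3418_ag.T.Zt
import Pool.Agent.Lib.MP_3b3418_ag.T.Zz

/-!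
# MP_3b3418_ag: assembly
-/

set_option autoImplicit false

namespace MP3b

theorem fStr : StrStmt := tStr tTri
theorem fVan : VanStmt := tVan tTri fStr
theorem fNz : NzStmt := tNz tEpw fStr
theorem fBas : BasStmt := tBas fStr fNz
theorem fEfp : EfpStmt := tEfp fBas
theorem fTau : TauStmt := tTau fStr fNz fBas
theorem fCen : CenStmt := tCen tTri tEpw fStr fBas
theorem fBsk : BskStmt := tBsk fBas fTau
theorem fLme : LmeStmt := tLme tTwa
theorem fLmt : LmtStmt := tLmt tTwa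
theorem fZz : ZzStmt := tZz tEpw fCen
theorem fZr : ZrStmt := tZr tTri tEpw fStr fBas fCen
theorem fZn : ZnStmt := tZn tTri fStr fNz fBas fTau
theorem fZt : ZtStmt := tZt tEpw fNz fBsk fZz fZr fZn
theorem fUtt : UttStmt := tUtt fTau fBsk tTwa fLme fZt
theorem fXd : XdStmt := tXd tTri tEpw fStr fBas fTau fCen
theorem fAll : AllStmt := tAll tEpw fNz fBas fTau fBsk tTwa fLmt fUtt fXd
theorem fDua : DuaStmt := tDua fVan fBas fTau fBsk
theorem fGen : GenStmt := tGen fStr fBas fTau fCen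
theorem fAA : AAStmt := tAA fBsk fAll fDua fGen
theorem fPdd : PddStmt := tPdd tPai tCov
theorem fPhi : PhiStmt := tPhi fCen
theorem fDns : DnsStmt := tDns fPhi tReg tCnj
theorem fJpr : JprStmt := tJpr tDev
theorem fLia : LiaStmt := tLia fJpr tAct
theorem fPow : PowStmt := tPow tEpw tDev tDml
theorem fTor : TorStmt := tTor tTri tDev tDml
theorem fNlp : NlpStmt := tNlp tEpw fBas tAct
theorem fFff : FffStmt := tFff tTri fStr fVan fBas fCen fJpr tAct fPow fTor fNlp tSlt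
theorem fCon : ConStmt := tCon tDev
theorem fMtw : MtwStmt := tMtw fBas tAct
theorem fCst : CstStmt := tCst tEpw fEfp fGen fAA tAct fLia fPow fFff fCon fMtw

/-- `SL_m` acts trivially on the polyvector fields of weight `-j` on the Springer resolution. -/
theorem main : MainStmt := tMai fPdd fPhi fDns fCst

end MP3b
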