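import Pool.Agent.Lib.MP_3b3418_ag.DefsA

/-!
# Part A: the statements

Every statement below is a task; its proof is in its docstring. Notation: `e = ee m`, `f = ff m`,
`h = hh m`, `v d i = vv m d i`; matrix indices start with `0`; `E i j` is the matrix unit
`Matrix.single i j 1`. The condition that `x` commutes with `e` is always written `ee m * x = x * ee m`.
-/

set_option autoImplicit false

namespace MP3b

open Matrix

/-- **Tri.** The relations of the principal `sl_2`.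

*Proof*. Compare entries: `h` is diagonal with entries `h_i = m - 1 - 2 i`, so
`(h x - x h) i j = (h_i - h_j) x i j`, and `h_i - h_j = 2 (j - i)`. `(e f) i j`: only `i = j` and the
value is `f (i+1) i = (i+1)(m-i-1)` (also right for `i = m - 1`, where it is `0`); `(f e) i i =
f i (i-1) = i (m - i)` (right for `i = 0`). `(i+1)(m-i-1) - i(m-i) = m - 1 - 2 i`.
*Uses*: nothing. -/
def TriStmt : Prop := ∀ m : ℕ, adm (ee m) (ff m) = hh m ∧ adm (hh m) (ee m) = (2 : ℂ) • ee m ∧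
  adm (hh m) (ff m) = (-2 : ℂ) • ff m ∧
  ∀ (x : Gl m) (i j : Fin m), (adm (hh m) x) i j =
    (2 * (((j : ℕ) : ℂ) - ((i : ℕ) : ℂ))) * x i j

/-- **Epw.** Powers of `e` and `f`.

*Proof*. Induction on `k` (`pow_succ`, `Matrix.mul_apply`; the sum has at most one nonzero term:
`(e^k e) i j = (e^k) i (j-1)`, `(f^k f) i j = (f^k) i (j+1) f (j+1) j`, and `f (j+1) j =
(j+1)(m-j-1) ≠ 0` for `j + 1 < m`; if `i = j + k + 1` then `j + 1 ≤ i < m`).
*Uses*: nothing. -/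
def EpwStmt : Prop := ∀ m k : ℕ, (∀ i j : Fin m, (ee m ^ k) i j =
    if (j : ℕ) = (i : ℕ) + k then 1 else 0) ∧
  ∀ i j : Fin m, (ff m ^ k) i j ≠ 0 ↔ (i : ℕ) = (j : ℕ) + k

/-- **Str.** The action of `e`, `f`, `h` on the `v d i`.

*Proof*. `adm (hh m) (f^d) = -2 d • f^d` by induction on `d` with `adm h (x y) = adm h x y + x adm h y`
and Tri; `f` commutes with `f^d`, so `adm f (v d 0) = 0`. For `x` arbitrary
`adm h (adm e x) = adm e (adm h x) + 2 • adm e x` and `adm f (adm e x) = adm e (adm f x) - adm h x`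
(Jacobi and Tri). First part by induction on `i`. Second part by induction on `i`:
`adm f (v d (i+1)) = adm e (adm f (v d i)) - (2 i - 2 d) v d i`; for `i = 0` this is `2 d • v d 0`, and
for `i = k + 1` it is `((k+1)(2 d - k) - 2(k+1) + 2 d) • v d (k+1)`, and
`(k+1)(2d-k) - 2(k+1) + 2d = (k+2)(2d-(k+1))`.
*Uses*: Tri. -/
def StrStmt : Prop := ∀ m d i : ℕ,
  adm (hh m) (vv m d i) = (2 * (i : ℂ) - 2 * (d : ℂ)) • vv m d i ∧
  adm (ff m) (vv m d (i + 1)) = (((i : ℂ) + 1) * (2 * (d : ℂ) - (i : ℂ))) • vv m d i ∧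
  adm (ff m) (vv m d 0) = 0

/-- **Van.** `v d (2d+1) = 0`.

*Proof*. Let `w = v d (2d+1)`, `w_n = (adm e)^n w = v d (2d+1+n)`. By Str `adm f w = 0` (the
coefficient `(2d+1)(2d-2d)` is `0`) and `adm f w_(n+1) = (2d+2+n)(2d-(2d+1+n)) • w_n =
-(2d+2+n)(n+1) • w_n`, a nonzero multiple of `w_n`. So if `w ≠ 0` then all `w_n ≠ 0` (induction).
But `adm h w_n = 2 (d+1+n) • w_n` and `(adm h x) i j = 2 (j - i) x i j` (Tri), so for `n = m`
every entry of `w_m` satisfies `(2(j - i) - 2(d+1+m)) w_m i j = 0` with `j - i < m`: `w_m = 0`.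
*Uses*: Tri, Str. -/
def VanStmt : Prop := ∀ m d : ℕ, vv m d (2 * d + 1) = 0

/-- **Nz.** `v d i ≠ 0` for `d < m`, `i ≤ 2 d`.

*Proof*. `v d 0 = f^d` has a nonzero entry at `(d, 0)` (Epw). Induction on `i`: for `i < 2 d` the
vector `adm f (v d (i+1))` is `(i+1)(2d-i) • v d i` with nonzero coefficient (Str), so `v d (i+1) ≠ 0`.
*Uses*: Epw, Str. -/
def NzStmt : Prop := ∀ m d i : ℕ, d < m → i ≤ 2 * d → vv m d i ≠ 0

/-- **Bas.** The `v d i` are a basis of `gl_m`.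

*Proof*. Let `T = (2 m) • (adm f * adm e + (1/4) • (adm h * adm h) + (1/2) • adm h) + (1/2) • adm h`.
By Str (`adm e (v d i) = v d (i+1)`, `vv_succ`; for `i = 2 d` use that `v d (2d+1)` is mapped to
`0 • v d (2d)`, also given by Str) `v d i` is an eigenvector of `T`: `adm f (adm e (v d i)) =
(i+1)(2d-i) • v d i`, and with `w = i - d` one has `(i+1)(2d-i) = d(d+1) - w^2 - w`, so the
eigenvalue is `2 m d (d+1) + (i - d)`. These numbers are different for different `(d, i)` with `d < m`,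
`i ≤ 2 d`, since `|i - d| ≤ d < m`: if `2m(d(d+1) - d'(d'+1)) = (i'-d') - (i-d)` then the left side is
`0` or has absolute value at least `2 m`, the right side has absolute value `< 2 m`; so
`d(d+1) = d'(d'+1)`, `d = d'`, `i = i'`. Nonzero eigenvectors (Nz) with different eigenvalues are
linearly independent (`Module.End.eigenvectors_linearIndependent'`). Their number is
`∑_(d<m) (2d+1) = m^2 = finrank`, so they span (`LinearIndependent.span_eq_top_of_card_eq_finrank`;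
`Fintype.card_sigma`, `Module.finrank_matrix`).
*Uses*: Str, Nz. -/
def BasStmt : Prop := ∀ m : ℕ,
  LinearIndependent ℂ (fun p : Ix m => vv m (p.1 : ℕ) (p.2 : ℕ)) ∧
  Submodule.span ℂ (Set.range fun p : Ix m => vv m (p.1 : ℕ) (p.2 : ℕ)) = ⊤

/-- **Efp.** The operator `D = f'` exists.

*Proof*. `Module.Basis.constr` for the basis of Bas (`Module.Basis.mk`), sending `v d 0` to `0` and
`v d (i+1)` to `(i+1)(2d-(i+1)) • v d i` (`i + 1 ≤ 2 d`).
*Uses*: Bas. -/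
def EfpStmt : Prop := ∀ m : ℕ, ∃ D : Module.End ℂ (Gl m), IsFp m D

/-- **Tau.** The trace form on the basis.

*Proof*. Let `τ = tr (v d i * v d' i')`. `tr ((adm x a) b) = -tr (a (adm x b))` for all `x`. With
`x = h` and Str: `(2i-2d) τ = -(2i'-2d') τ`, so `τ ≠ 0` implies `i - d = d' - i'` (in `ℤ`).
`tr ((adm f (adm e a)) b) = tr (a (adm e (adm f b)))`; with Str the left side is
`(i+1)(2d-i) τ` (for `i = 2 d` also: coefficient `0`) and the right side is `i'(2d'+1-i') τ` (write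
`i' = k + 1`, `adm f (v d' (k+1)) = (k+1)(2d'-k) v d' k`, then `adm e`; for `i' = 0` it is `0`). With
`w = i - d`, `i' = d' - w`: `(d+w+1)(d-w) - (d'-w)(d'+1+w) = d(d+1) - d'(d'+1)`. So `τ ≠ 0` implies
`d = d'` and `i + i' = 2 d`. Conversely, if `τ = 0` for `d' = d`, `i' = 2d - i`, then
`tr (v d i * y) = 0` for all basis vectors `y` (Bas), hence for all `y`, in particular for
`y = E b a`, which gives `(v d i) a b = 0` for all `a, b`, against Nz.
*Uses*: Str, Nz, Bas. -/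
def TauStmt : Prop := ∀ m d i d' i' : ℕ, d < m → d' < m → i ≤ 2 * d → i' ≤ 2 * d' →
  ((vv m d i * vv m d' i').trace ≠ 0 ↔ d = d' ∧ i + i' = 2 * d)

/-- **Cen.** The centraliser of `e`.

*Proof*. Let `e x = x e` and `x = ∑ c_(d,i) v d i` (Bas). Then `0 = adm e x = ∑ c_(d,i) v d (i+1)`,
where the terms with `i = 2 d` vanish (Van) and the others are different basis vectors, so
`c_(d,i) = 0` for `i < 2 d`. This is the first part. Second part: `D (v d (2d)) = 0`: for `d = 0` by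
`IsFp.zero`, for `d ≥ 1` by `IsFp.succ` with `i = 2d - 1` (coefficient `2d (2d - 2d) = 0`). Third part:
`e^d` commutes with `e`, so `e^d = ∑ c_(d') v d' (2d')`; apply `adm h`: `adm h (e^d) = 2 d • e^d`
(Tri, entries: `e^d i j = 0` unless `j - i = d`, Epw) and Str give `(2 d' - 2 d) c_(d') = 0`, so
`e^d = c_d v d (2d)`, and `e^d ≠ 0` (entry `(0, d)`, `d < m`). Fourth part: `e^d` is upper
triangular by Epw, and `v d (2d) = c^(-1) e^d`.
*Uses*: Tri, Epw, Str, Van, Bas. -/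
def CenStmt : Prop := ∀ m : ℕ,
  (∀ x : Gl m, ee m * x = x * ee m → ∃ c : Fin m → ℂ, x = ∑ d, c d • vv m (d : ℕ) (2 * (d : ℕ))) ∧
  (∀ D, IsFp m D → ∀ x : Gl m, ee m * x = x * ee m → D x = 0) ∧
  (∀ d, d < m → ∃ c : ℂ, c ≠ 0 ∧ ee m ^ d = c • vv m d (2 * d)) ∧
  ∀ x : Gl m, ee m * x = x * ee m → Upper x

/-- **Bsk.** Properties of the form `Bf a b = tr ([e, a] b)`.

*Proof*. (1) `tr ((e a - a e) b) = tr (e a b) - tr (a e b) = -tr ((e b - b e) a)` by cyclicity. (2)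
`tr ([e, [y, a]] b) = tr ([y, [e, a]] b)` since `[y, e] = 0` (Jacobi) `= -tr ([e, a] [y, b])`. (4)
`Bf a x = tr ([e, a] x) = -tr (a [e, x])`; if this vanishes for all `a` then `[e, x] = 0` (take
matrix units). (5) the same formula. (3) By bilinearity and Bas it suffices to take `a = v d i`,
`b = v d' i'`. `Bf (v d i) (v d' i') = tr (v d (i+1) * v d' i')`, and it is `0` if `i = 2d` (Van). By
Tau it vanishes unless `d = d'` and `i + 1 + i' = 2 d`. If `i = 0` then `D (v d 0) = 0` and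
`Bf (v d 0) (D (v d' i'))`: for `i' = 0` it is `0`, for `i' ≥ 1` it is `i' (2d' - i')` times
`tr (v d 1 * v d' (i'-1))`, nonzero only if `d = d'`, `i' = 2d`, and then the coefficient is `0`. The same
for `i' = 0` (use (1)). Let `i, i' ≥ 1`: the left side is `i (2d-i) tr (v d i * v d' i')`, the right
side `-i'(2d'-i') tr (v d (i+1) * v d' (i'-1)) = i'(2d'-i') tr (v d i * v d' i')` by
`tr ([e, a] b) = -tr (a [e, b])`. Both vanish unless `d = d'`, `i + i' = 2d` (Tau), and then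
`i (2d - i) = i' (2d - i')`.
*Uses*: Van, Bas, Tau. -/
def BskStmt : Prop := ∀ m : ℕ,
  (∀ a b : Gl m, Bf m a b = -Bf m b a) ∧
  (∀ y : Gl m, ee m * y = y * ee m → Skew (Bf m) (adm y)) ∧
  (∀ D, IsFp m D → Skew (Bf m) D) ∧
  (∀ x : Gl m, (∀ a, Bf m a x = 0) → ee m * x = x * ee m) ∧
  ∀ x : Gl m, ee m * x = x * ee m → ∀ a, Bf m a x = 0 ∧ Bf m x a = 0

/-- **Twa.** The operators `tw B a b` (abstract).

*Proof*. Direct. (2): `A (tw a b x) - tw a b (A x) = B a x • A b + B b x • A a - B a (A x) • b -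
B b (A x) • a` and `B a (A x) = -B (A a) x`. (3): both sides are `B a x * B b y + B b x * B a y` after
`B x b = -B b x`. (4) is (2) for `A = tw B a b` with (3), expanded.
*Uses*: nothing. -/
def TwaStmt : Prop := ∀ (V : Type) [AddCommGroup V] [Module ℂ V] (B : V →ₗ[ℂ] V →ₗ[ℂ] ℂ),
  (∀ x y, B x y = -B y x) →
  (∀ a b, tw B a b = tw B b a) ∧
  (∀ A, Skew B A → ∀ a b, A * tw B a b - tw B a b * A = tw B (A a) b + tw B a (A b)) ∧
  (∀ a b, Skew B (tw B a b)) ∧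
  (∀ a b c d, tw B a b * tw B c d - tw B c d * tw B a b =
    B a c • tw B b d + B b c • tw B a d + B a d • tw B b c + B b d • tw B a c) ∧
  (∀ a a' b, tw B (a + a') b = tw B a b + tw B a' b) ∧
  ∀ (c : ℂ) a b, tw B (c • a) b = c • tw B a b

/-- **Lme.** From one operator `tw w w` to the whole string (abstract).

*Proof*. Write `w k = D^k w`, `β = B w (w n)`. (1) Skewness gives `B (w k) (w l) = (-1)^k B w (w (k+l))`,
but only `B w (w k)` is needed. (2) `Q N := ∑_(k ≤ N) C(N, k) • tw (w k) (w (N - k)) ∈ I` for all `N`: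
`Q 0 = tw w w`; by Twa `D * tw (w k) (w l) - tw (w k) (w l) * D = tw (w (k+1)) (w l) + tw (w k) (w (l+1))`,
and Pascal's rule gives `D * Q N - Q N * D = Q (N+1)`, which is in `I` by hypothesis. (3) Let `N ≤ n`.
By Twa the commutator of `tw w w` with `tw (w k) (w l)` is
`2 B w (w k) • tw w (w l) + 2 B w (w l) • tw w (w k)`, and `B w (w k) = β` for `k = n` and `0`
otherwise (for `k > n` because `w k = 0`). So the commutator of `Q 0` and `Q (N+n)` is the sum of the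
terms with `k = n` (`l = N`) and with `l = n` (`k = N`): it is `4 β C(N+n, n) • tw w (w N)` (for `N = n`
the only term `k = l = n` contributes twice, with the same result). It lies in `I` (closed under
commutators), so `tw w (w N) ∈ I` for all `N ≤ n`; for `N > n` it is `0`. (4) Induction on `k`: for all
`N`, `tw (w k) (w N) ∈ I`: `tw (w (k+1)) (w N) = (D * tw (w k) (w N) - tw (w k) (w N) * D) - tw (w k) (w (N+1))`.
*Uses*: Twa. -/
def LmeStmt : Prop := ∀ (V : Type) [AddCommGroup V] [Module ℂ V] (B : V →ₗ[ℂ] V →ₗ[ℂ] ℂ),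
  (∀ x y, B x y = -B y x) → ∀ (I : Submodule ℂ (Module.End ℂ V)),
  (∀ X ∈ I, ∀ Y ∈ I, X * Y - Y * X ∈ I) → ∀ D : Module.End ℂ V, Skew B D →
  (∀ X ∈ I, D * X - X * D ∈ I) → ∀ (w : V) (n : ℕ), (D ^ (n + 1)) w = 0 →
  B w ((D ^ n) w) ≠ 0 → (∀ k, k < n → B w ((D ^ k) w) = 0) → tw B w w ∈ I →
  ∀ k l : ℕ, tw B ((D ^ k) w) ((D ^ l) w) ∈ I

/-- **Lmt.** The set `T` (abstract).

*Proof*. `T = {a | ∀ w ∈ U, tw B a w ∈ I}` is a submodule by the linearity of Twa. `U ≤ T` is the last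
hypothesis. (ii) Let `a, b ∈ T`. Choose `w ∈ U`, `w ≠ 0` and `w' ∈ U` with `B w w' ≠ 0`. By Twa the
commutator of `tw a w ∈ I` and `tw b w' ∈ I` is
`B a b • tw w w' + B w b • tw a w' + B a w' • tw w b + B w w' • tw a b`; all terms but the last are
in `I` (`tw w b = tw b w`), so `tw a b ∈ I`. (iii) Let `A ∈ 𝒜`, `w ∈ U`: `A w ∈ T`. By Twa (2)
`2 • tw (A w) w ∈ I` (commutator of `A` with `tw w w`), so `tw (A w) w ∈ I`. For `c, d ∈ U` the
commutator of `tw (A w) w` and `tw c d` is `B (A w) c • tw w d + B w c • tw (A w) d +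
B (A w) d • tw w c + B w d • tw (A w) c`, hence `B w c • tw (A w) d + B w d • tw (A w) c ∈ I` (*). Given
`d ∈ U`: if `B w d ≠ 0` take `c = d`; if `B w d = 0` and `w ≠ 0` take `c ∈ U` with `B w c ≠ 0`; if `w = 0`
then `A w = 0`. In all cases `tw (A w) d ∈ I`. (iv) Let `a ∈ T`, `A ∈ 𝒜`, `w ∈ U`: `tw (A a) w =`
(commutator of `A` with `tw a w`) `- tw a (A w)`, and `tw a (A w) ∈ I` by (iii) and (ii).
*Uses*: Twa. -/
def LmtStmt : Prop := ∀ (V : Type) [AddCommGroup V] [Module ℂ V] (B : V →ₗ[ℂ] V →ₗ[ℂ] ℂ),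
  (∀ x y, B x y = -B y x) → ∀ (I : Submodule ℂ (Module.End ℂ V)),
  (∀ X ∈ I, ∀ Y ∈ I, X * Y - Y * X ∈ I) → ∀ 𝒜 : Set (Module.End ℂ V),
  (∀ A ∈ 𝒜, Skew B A ∧ ∀ X ∈ I, A * X - X * A ∈ I) → ∀ U : Submodule ℂ V, U ≠ ⊥ →
  (∀ w ∈ U, w ≠ 0 → ∃ c ∈ U, B w c ≠ 0) → (∀ u ∈ U, ∀ w ∈ U, tw B u w ∈ I) →
  ∃ T : Submodule ℂ V, U ≤ T ∧ (∀ a, a ∈ T ↔ ∀ w ∈ U, tw B a w ∈ I) ∧
    (∀ A ∈ 𝒜, ∀ a ∈ T, A a ∈ T) ∧ ∀ a ∈ T, ∀ b ∈ T, tw B a b ∈ I

/-- **Zz.** The element `(0, ad z f' ad z)` of `𝔰`, `z = e^(m-1)`, `m ≥ 3`.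

*Proof*. `z = E 0 (m-1)` (Epw), `z x z = x (m-1) 0 • z` for all `x`, `z^2 = 0` (`m ≥ 2`), `e z = z e = 0`
(`e^m = 0` by Epw). With `p = (z, adm z)`, `q = (f, D)` in `S`: `[p, [q, p]] ∈ S` with first component
`[z, [f, z]] = 2 z f z - z^2 f - f z^2 = 2 f (m-1) 0 • z = 0` for `m ≥ 3`, and second component
`adm z (D adm z - adm z D) - (D adm z - adm z D) adm z = 2 adm z D adm z - (adm z)^2 D - D (adm z)^2`.
Now `(adm z)^2 x = -2 z x z` is a multiple of `z`, which commutes with `e`, so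
`(0, (adm z)^2 D) ∈ S` by `IsS.cen`, and `D (adm z)^2 = 0` by Cen (2). Hence `(0, 2 adm z D adm z) ∈ S`.
*Uses*: Epw, Cen. -/
def ZzStmt : Prop := ∀ m : ℕ, 3 ≤ m → ∀ D, IsFp m D → ∀ S, IsS m D S →
  ((0 : Gl m), adm (ee m ^ (m - 1)) * D * adm (ee m ^ (m - 1))) ∈ S

/-- **Zr.** `ad z f' ad z` has rank one modulo the centraliser of `e`.

*Proof*. Let `z = e^(m-1) = E 0 (m-1)`. (1) `adm h (D x) = D (adm h x) - 2 • D x` for all `x`: on `v d i`
by Str and IsFp (`D (v d (i+1))` is a multiple of `v d i`, weights `2i-2d` and `2(i+1)-2d`), then by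
Bas. For `x = E i j` Tri gives `adm h x = 2(j-i) • x`, so `adm h (D x) = 2(j-i-1) • D x` and Tri gives
`(D (E i j)) k l = 0` unless `l - k = j - i - 1`. (2) `[z, x] = z x - x z` is upper triangular (row `0`
and column `m-1` only), so it is a combination of `E i j` with `i ≤ j`, and `y := D [z, x]` satisfies
`y k l = 0` if `l - k < -1`, that is if `k ≥ l + 2`. (3) `[z, y] = ∑_j y (m-1) j • E 0 j -
∑_i y i 0 • E i (m-1)`, so with (2) `[z, y] = y (m-1) (m-2) • E 0 (m-2) + (y (m-1) (m-1) - y 0 0) • z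
- y 1 0 • E 1 (m-1)`. Modulo the centraliser of `e`: `z` is in it, and for `m ≥ 3`
`E 0 (m-2) + E 1 (m-1) = e^(m-2)` (Epw) is in it; so `[z, y]` is congruent to
`(y (m-1) (m-2) + y 1 0) • E 0 (m-2)`. (4) `adm e (E 0 (m-2)) = -E 0 (m-1) = -z` and `adm e (v (m-1) (2m-3)) =
v (m-1) (2m-2) = c^(-1) z`, `c ≠ 0` (Cen (3)); so `E 0 (m-2) + c • v (m-1) (2m-3)` commutes with `e`.
Take `l x = -c (y (m-1) (m-2) + y 1 0)`, linear in `x`.
*Uses*: Tri, Epw, Str, Bas, Cen. -/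
def ZrStmt : Prop := ∀ m : ℕ, 3 ≤ m → ∀ D, IsFp m D → ∃ l : Gl m →ₗ[ℂ] ℂ, ∀ x : Gl m,
  adm (ee m) ((adm (ee m ^ (m - 1)) * D * adm (ee m ^ (m - 1))) x - l x • vv m (m - 1) (2 * m - 3)) = 0

/-- **Zn.** A positivity argument.

*Proof*. Let `u d = v d d` (`d < m`). By induction on `i` every `v d i` is the image under
`Matrix.map _ (algebraMap ℝ ℂ)` of a real matrix (`e`, `f` are real), so `u d` has real entries. `adm h (u d) = 0`
(Str), so `u d` is diagonal (Tri). Hence `τ d := tr (u d * u d) = ∑_i (u d i i)^2` is a real number, and it is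
`> 0` because `u d ≠ 0` (Nz). Let `η = E 0 0 - E (m-1) (m-1) = ∑ c_(d,i) v d i` (Bas). `adm h η = 0` and
Str give `c_(d,i) = 0` for `i ≠ d`: `η = ∑_d t d • u d`. By Tau `tr (η * u d) = t d * τ d`, and the left side
is real, so `t d` is real. `u 0 = v 0 0 = 1` and `tr η = 0`, so `t 0 = 0`; `η ≠ 0` (as `m ≥ 2`), so some
`t d ≠ 0`, `d ≥ 1`. `D η = ∑_(d ≥ 1) t d d^2 • v d (d-1)` (IsFp with `i + 1 = d`), `adm e (D η) =
∑ t d d^2 • u d`, and `Bf η (D η) = tr ([e, η] D η) = -tr (η [e, D η]) = -∑ (t d)^2 d^2 τ d` (Tau), a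
negative real number.
*Uses*: Tri, Str, Nz, Bas, Tau. -/
def ZnStmt : Prop := ∀ m : ℕ, ∀ hm : 2 ≤ m, ∀ D, IsFp m D → ∀ η : Gl m,
  η = Matrix.single ⟨0, by omega⟩ ⟨0, by omega⟩ 1 -
    Matrix.single ⟨m - 1, by omega⟩ ⟨m - 1, by omega⟩ 1 → Bf m η (D η) ≠ 0

/-- **Zt.** The first transvection in `𝔰`.

*Proof*. Let `z = e^(m-1) = E 0 (m-1)`, `Z = adm z * D * adm z`, `w = v (m-1) (2m-3)`, `l` from Zr:
`Z x - l x • w` commutes with `e`. By Bsk (5) `Bf a (Z x) = l x * Bf a w` for all `a, x`. `adm z` and `D` are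
skew (Bsk), so `Bf a (Z x) = -Bf (Z a) x = Bf x (Z a) = l a * Bf x w`. So `l x * Bf a w = l a * Bf x w`.
`adm e w = v (m-1) (2m-2) ≠ 0` (Nz), so by Bsk (4) and (1) there is `a₀` with `Bf a₀ w = 1`; then
`l x = l a₀ * Bf x w = -l a₀ * Bf w x`. So with `κ = -l a₀`, `Z x - κ * Bf w x • w = Z x - (κ/2) • tw w w x`
commutes with `e` for all `x`, and by Zz and `IsS.cen` `(0, (κ/2) • tw w w) ∈ S`. Finally `κ ≠ 0`:
otherwise `l = 0`, `Z x` commutes with `e` for all `x`, and `Bf x₀ (Z x₀) = 0` for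
`x₀ = E (m-1) 0`. But `adm z x₀ = E 0 0 - E (m-1) (m-1) = η` and `Bf x₀ (Z x₀) = -Bf (adm z x₀) (D (adm z x₀))
= -Bf η (D η) ≠ 0` by Zn.
*Uses*: Epw, Nz, Bsk, Zz, Zr, Zn. -/
def ZtStmt : Prop := ∀ m : ℕ, 3 ≤ m → ∀ D, IsFp m D → ∀ S, IsS m D S →
  ((0 : Gl m), tw (Bf m) (vv m (m - 1) (2 * m - 3)) (vv m (m - 1) (2 * m - 3))) ∈ S

/-- **Utt.** All transvections of the top component.

*Proof*. Apply Lme to `V = gl_m`, `B = Bf m`, `I = {A | (0, A) ∈ S}` (closed under commutators and under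
commutator with `D` by `IsS.brk` with `(0, X), (0, Y)`, resp. `(f, D), (0, X)`), `w = v (m-1) (2m-3)`,
`n = 2m - 3`. `D^k w = c_k • v (m-1) (2m-3-k)` with `c_k ≠ 0` for `k ≤ 2m - 3` (IsFp: the coefficient
`i (2(m-1) - i)` is nonzero for `1 ≤ i ≤ 2m-3`), and `D^(2m-2) w = c • D (v (m-1) 0) = 0`. `Bf w (D^k w) =
c_k tr (v (m-1) (2m-2) * v (m-1) (2m-3-k))`, nonzero iff `2m-2 + 2m-3-k = 2m - 2` (Tau), that is iff
`k = 2m - 3`. `tw w w ∈ I` by Zt. The conclusion for `D^k w`, `D^l w` gives the claim (divide by `c_k c_l`,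
Twa).
*Uses*: Tau, Bsk, Twa, Lme, Zt. -/
def UttStmt : Prop := ∀ m : ℕ, 3 ≤ m → ∀ D, IsFp m D → ∀ S, IsS m D S →
  ∀ i k : ℕ, i ≤ 2 * m - 3 → k ≤ 2 * m - 3 →
    ((0 : Gl m), tw (Bf m) (vv m (m - 1) i) (vv m (m - 1) k)) ∈ S

/-- **Xd.** The elements `X_d = e^(m-d) x₀ - x₀ e^(m-d)`, `x₀ = E (m-1) 0`.

*Proof*. By Epw `X = E (d-1) 0 - E (m-1) (m-d)` (`1 ≤ d < m`). `adm h X = -2(d-1) • X` (Tri), so in
`X = ∑ c_(d',i') v d' i'` (Bas, Str) only the terms with `d' - i' = d - 1` occur, so `d' ≥ d - 1`, and the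
coefficients are: `a` of `v (d-1) 0`, `c` of `v d 1`, and those of `v d' (d'-d+1)` with `d' > d`.
(1) `a = 0`: take the trace with `e^(d-1)`, a multiple of `v (d-1) (2d-2)` (Cen): by Tau only
the first term contributes: `tr (X e^(d-1)) = a * tr (v (d-1) 0 * e^(d-1))` with nonzero factor; and
`tr (X e^(d-1)) = (e^(d-1)) 0 (d-1) - (e^(d-1)) (m-d) (m-1) = 1 - 1 = 0`. (2) `c ≠ 0`: take the trace
with `adm f (e^d)`, which by Cen and Str is a nonzero multiple of `v d (2d-1)`: by Tau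
`tr (X * adm f (e^d)) = c * tr (v d 1 * adm f (e^d))`. The left side: `tr (E a b * M) = M b a`, so it is
`M 0 (d-1) - M (m-d) (m-1)` with `M = f e^d - e^d f`. `(f e^d) 0 (d-1) = 0` (row `0` of `f` is zero),
`(e^d f) 0 (d-1) = f d (d-1) = d (m-d)`, `(f e^d) (m-d) (m-1) = f (m-d) (m-d-1) = (m-d) d` (for
`d < m`; `(e^d) (m-d-1) (m-1) = 1`), `(e^d f) (m-d) (m-1) = 0` (row `m-d` of `e^d` is zero). So it is
`-d(m-d) - d(m-d) ≠ 0`.
*Uses*: Tri, Epw, Str, Bas, Tau, Cen. -/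
def XdStmt : Prop := ∀ m d : ℕ, ∀ _ : 1 ≤ d, ∀ _ : d < m, ∀ x₀ : Gl m,
  x₀ = Matrix.single ⟨m - 1, by omega⟩ ⟨0, by omega⟩ 1 →
  ∃ (c : ℂ) (a : Fin m → ℂ), c ≠ 0 ∧ adm (ee m ^ (m - d)) x₀ = c • vv m d 1 +
    ∑ d' : Fin m, if d < (d' : ℕ) then a d' • vv m (d' : ℕ) ((d' : ℕ) - d + 1) else 0

/-- **All.** All transvections are in `𝔰`.

*Proof*. Apply Lmt with `V = gl_m`, `B = Bf m`, `I = {A | (0, A) ∈ S}`, `𝒜 = {D} ∪ {adm (e^k) | k ≥ 1}`
(skew by Bsk; commutators with `I` in `I` by `IsS.brk`), `U` = span of the `v (m-1) i`, `i ≤ 2m-3`.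
`U ≠ ⊥` (Nz). Nondegeneracy of `U`: if `w = ∑_(i ≤ 2m-3) a_i v (m-1) i ≠ 0`, say `a_k ≠ 0`, then
`c := v (m-1) (2m-3-k)` gives `Bf w c = ∑ a_i tr (v (m-1) (i+1) * v (m-1) (2m-3-k))`, and by Tau only `i = k`
contributes: `≠ 0`. The `tw u w`, `u, w ∈ U`, are in `I` by Utt and bilinearity (Twa). Let `T` be the
submodule of Lmt. (1) If `a` commutes with `e` then `a ∈ T`: `tw a w x = Bf a x • w + Bf w x • a =
Bf w x • a` (Bsk (5)) commutes with `e`, so `tw a w ∈ I` by `IsS.cen`. (2) `x₀ = E (m-1) 0` is a multiple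
of `f^(m-1) = v (m-1) 0 ∈ U ≤ T` (Epw). (3) Claim: for all `d` with `1 ≤ d < m`, `v d i ∈ T` for all
`i ≤ 2d`. Downward (strong) induction on `d`: by Lmt `adm (e^(m-d)) x₀ ∈ T`; by Xd and the induction
hypothesis `c • v d 1 ∈ T`, so `v d 1 ∈ T`; `adm e` gives `v d i ∈ T` for all `i ≥ 1`; `D (v d 1) =
(2d-1) • v d 0` (IsFp with `i = 0`) gives `v d 0 ∈ T`. (4) `v 0 0 = 1` commutes with `e`. So `T = ⊤` by Bas,
and the last part of Lmt is the claim.
*Uses*: Epw, Nz, Bas, Tau, Bsk, Twa, Lmt, Utt, Xd. -/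
def AllStmt : Prop := ∀ m : ℕ, 3 ≤ m → ∀ D, IsFp m D → ∀ S, IsS m D S →
  ∀ a b : Gl m, ((0 : Gl m), tw (Bf m) a b) ∈ S

/-- **Dua.** Every skew operator is a combination of transvections modulo maps into the centraliser
of `e`.

*Proof*. For `p = (d, i)` with `1 ≤ d < m`, `i < 2d` let `u p = v d i` and
`u' p = (tr (v d (2d-i) * v d i))^(-1) • v d (2d-1-i)`, so that (`Bf (v d (2d-1-i)) (v d i) =
tr (v d (2d-i) * v d i) ≠ 0`, Tau) `Bf (u' p) (u q) = δ_(p,q)` (Tau). Completeness: for all `x`,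
`x - ∑_p Bf (u' p) x • u p` commutes with `e`: by linearity and Bas check it for `x = v d i`, `i < 2d`
(the difference is `0`) and `x = v d (2d)` (commutes with `e` by Van, and `Bf (u' p) x = 0` by Bsk (5)). Hence
`Bf w x = ∑_p Bf (u' p) x * Bf w (u p)` for all `w, x` (Bsk (5)). Let `A` be skew and
`N := 2 • A - ∑_p tw (u' p) (A (u p))`. For all `w, x`: `Bf w (N x) = 2 Bf w (A x) - ∑_p (Bf (u' p) x *
Bf w (A (u p)) + Bf (A (u p)) x * Bf w (u' p))`. First sum: `Bf w (A (u p)) = -Bf (A w) (u p)`, so it is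
`-Bf (A w) x = Bf w (A x)`. Second sum: `Bf (A (u p)) x = -Bf (u p) (A x) = Bf (A x) (u p)` and
`Bf w (u' p) = -Bf (u' p) w`, so it is `-∑ Bf (u' p) w * Bf (A x) (u p) = -Bf (A x) w = Bf w (A x)`. Hence
`Bf w (N x) = 0` for all `w`, so `N x` commutes with `e` (Bsk (4)), `(0, N) ∈ S` (`IsS.cen`), and with All
`(0, A) ∈ S`.
*Uses*: Van, Bas, Tau, Bsk. -/
def DuaStmt : Prop := ∀ m : ℕ, ∀ D, IsFp m D → ∀ S, IsS m D S →
  (∀ a b : Gl m, ((0 : Gl m), tw (Bf m) a b) ∈ S) →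
  ∀ A : Module.End ℂ (Gl m), Skew (Bf m) A → ((0 : Gl m), A) ∈ S

/-- **Gen.** `e^k` and `f` generate `sl_m`.

*Proof*. `L = {y | (y, 0) ∈ S}` is a submodule closed under commutators (`IsS.brk`). It contains `e^k`
(`k ≥ 1`) and `f`. For `1 ≤ d < m`, `e^d` is a nonzero multiple of `v d (2d)` (Cen), so
`v d (2d) ∈ L`; by Str `adm f (v d (i+1)) = (i+1)(2d-i) • v d i` with nonzero coefficient for `i < 2d`, so
(downward induction) `v d i ∈ L` for all `i ≤ 2d`. Let `tr y = 0`, `y = ∑ c_(d,i) v d i` (Bas).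
`tr (v d i) = 0` for `d ≥ 1` (Tau with `v 0 0 = 1`: `tr (v d i * v 0 0) = 0` as `d ≠ 0`) and
`v 0 0 = 1` has trace `m ≠ 0`, so `c_(0,0) = 0` and `y ∈ L`.
*Uses*: Str, Bas, Tau, Cen. -/
def GenStmt : Prop := ∀ m : ℕ, 1 ≤ m → ∀ S : Submodule ℂ (Gl m × Module.End ℂ (Gl m)),
  (∀ p ∈ S, ∀ q ∈ S, (p.1 * q.1 - q.1 * p.1, p.2 * q.2 - q.2 * p.2) ∈ S) →
  (∀ k, 1 ≤ k → (ee m ^ k, (0 : Module.End ℂ (Gl m))) ∈ S) → (ff m, (0 : Module.End ℂ (Gl m))) ∈ S →
  ∀ y : Gl m, y.trace = 0 → (y, (0 : Module.End ℂ (Gl m))) ∈ S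

/-- **AA.** Part A.

*Proof*. By All and Dua `(0, A) ∈ S` for all skew `A`, in particular for `A = adm (e^k)` and `A = D` (Bsk). Subtract
from `(e^k, adm (e^k))` and `(f, D)`: `(e^k, 0) ∈ S`, `(f, 0) ∈ S`. Apply Gen.
*Uses*: Bsk, All, Dua, Gen. -/
def AAStmt : Prop := ∀ m : ℕ, 3 ≤ m → ∀ D, IsFp m D → ∀ S, IsS m D S →
  ∀ y : Gl m, y.trace = 0 → (y, (0 : Module.End ℂ (Gl m))) ∈ S

end MP3b
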