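import Pool.Agent.Lib.MP_3b3418_ag.SpecA
import Pool.Agent.Lib.MP_3b3418_ag.DefsB

/-!
# Part B: the statements

Every statement below is a task; its proof is in its docstring.
-/

set_option autoImplicit false

namespace MP3b

open Matrix exteriorPower

/-- **Pai.** The pairing of exterior powers: naturality and nondegeneracy.

*Proof*. (1) Both sides are linear in `ω`; by `exteriorPower.linearMap_ext` (or `ιMulti_span`) take
`ω = ιMulti ℂ j v`; with `map_apply_ιMulti` and `pairingDual_ιMulti_ιMulti` both sides are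
`det (φ k (f (v i)))`. (2) Choose a basis of `V` indexed by `Fin n` (`Module.finBasis`);
by `exteriorPower.basis_repr_apply` and `ιMultiDual` the coordinates of `ω` in the basis
`b.exteriorPower j` are values `pairingDual (ιMulti_family ℂ j b.coord s) ω`, and
`ιMulti_family` is an `ιMulti` of coordinate functionals. So all coordinates vanish.
*Uses*: nothing. -/
def PaiStmt : Prop := ∀ (V V' : Type) [AddCommGroup V] [Module ℂ V] [AddCommGroup V'] [Module ℂ V']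
  (j : ℕ),
  (∀ (f : V →ₗ[ℂ] V') (φ : Fin j → Module.Dual ℂ V') (ω : ⋀[ℂ]^j V),
    pairingDual ℂ V j (ιMulti ℂ j fun k => (φ k) ∘ₗ f) ω =
      pairingDual ℂ V' j (ιMulti ℂ j φ) (exteriorPower.map j f ω)) ∧
  (FiniteDimensional ℂ V → ∀ ω : ⋀[ℂ]^j V,
    (∀ φ : Fin j → Module.Dual ℂ V, pairingDual ℂ V j (ιMulti ℂ j φ) ω = 0) → ω = 0)

/-- **Cov.** The functionals `cov ξ`.

*Proof*. (1) Every functional `l` on `slm m × nil m` is `l₁ (y) + l₂ (μ)`; extend `l₁`, `l₂` to `Gl m`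
(`LinearMap.exists_extend`, a subspace of a vector space) and represent a functional `l'` on `Gl m`
as `y ↦ tr (α y)`, `α a b = l' (E b a)` (check on matrix units, or use `Matrix` trace duality). (2)
`tr (α (b⁻¹ (y b))) = tr ((b α b⁻¹) y)` by cyclicity, and `cj b⁻¹ α = b (α b⁻¹)` (`inv_inv`). (3) clear.
*Uses*: nothing. -/
def CovStmt : Prop := ∀ m : ℕ,
  (∀ l : Module.Dual ℂ (slm m × nil m), ∃ ξ : Gl m × Gl m, cov ξ = l) ∧
  (∀ (b : SLm m) (hb : Upper (b : Gl m)) (ξ : Gl m × Gl m) (p : slm m × nil m),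
    cov (cj b⁻¹ ξ.1, cj b⁻¹ ξ.2) p = cov ξ (cjT b hb p)) ∧
  ∀ (c : ℂ) (ξ : Gl m × Gl m) (p : slm m × nil m), cov (ξ.1, c • ξ.2) p = cov ξ (dil c p)

/-- **Pdd.** From a polyvector field to a polynomial alternating form `Q`.

*Proof*. Let `p` be the polynomial lift of `s.val` (`s.regular`), `b_a` (`a` in a finite type) a basis of
`⋀^j (slm m × nil m)` (`Module.finBasis`; it is finite and free by the instances of
`Mathlib.LinearAlgebra.ExteriorPower.Basis`), `P_a` the polynomial of the coordinate functional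
`b.coord a` (`IsPoly`). Let `L : ⋀^j (Dual) →ₗ Pl2 m`, `L θ = ∑_a pairingDual θ (b_a) • P_a`, and
`Q = L.compAlternatingMap ((ιMulti ℂ j).compLinearMap cov)`. Then
(A) `ev2 g ν (Q ξ) = pairingDual (ιMulti (cov ∘ ξ)) (p g ν)` for `g ∈ SL_m`, `ν ∈ 𝔫` (`ev2 g ν P_a` is
the coordinate of `p g ν`; `Sum.elim` as in `IsPoly`; `aeval = eval`). If all `ξ i` satisfy `Van ν`,
let `φ i = (orb m ν).liftQ (cov (ξ i))`; then `cov (ξ i) = φ i ∘ₗ mkQ`, so by Pai (1)
(B) `ev2 g ν (Q ξ) = pairingDual (ιMulti φ) (s.val g ν)`.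
`zero`: if `cov (ξ i) = 0` then `ιMulti (cov ∘ ξ) = 0` (`AlternatingMap.map_coord_zero`), so `Q ξ = 0`.
`equi`: by (B) at `(g b, b⁻¹ ν b)`, `s.equivariant`, Pai (1) the left side is `pairingDual
(ιMulti (fun i => φ i ∘ₗ tcj b hb ν)) (s.val g ν)`, and `φ i ∘ₗ tcj b hb ν ∘ₗ mkQ = cov (ξ i) ∘ₗ cjT b hb =
cov (cj b⁻¹ (ξ i).1, cj b⁻¹ (ξ i).2)` (Cov (2)); in particular this pair satisfies `Van ν`, and (B) at
`(g, ν)` finishes. (The coercion of `cjN b hb ν` is `cj b ν` by `rfl`.) `wt`: the same with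
`HasWeight`, `tdil` and Cov (3). Last part: let `ω = s.val g ν - s.val g' ν`. For every
`φ : Fin j → Dual (TS m ν)` choose `ξ i` with `cov (ξ i) = φ i ∘ₗ mkQ` (Cov (1)); it satisfies `Van ν`, and
`φ i = liftQ`; by (B) `pairingDual (ιMulti φ) ω = 0`; so `ω = 0` by Pai (2).
*Uses*: Pai, Cov. -/
def PddStmt : Prop := ∀ (m j : ℕ) (s : PolyVec m j) (k : ℤ), s.HasWeight k →
  ∃ Q : (Gl m × Gl m) [⋀^Fin j]→ₗ[ℂ] Pl2 m, IsPD k Q ∧ ∀ (g g' : SLm m) (ν : nil m),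
    (∀ ξ : Fin j → Gl m × Gl m, (∀ i, Van ν (ξ i)) →
      ev2 (g : Gl m) (ν : Gl m) (Q ξ) = ev2 (g' : Gl m) (ν : Gl m) (Q ξ)) →
    s.val g ν = s.val g' ν

/-- **Phi.** The form `phi Q`.

*Proof*. Formula: `evm g ∘ sube` and `ev2 g e` are algebra homomorphisms which agree on the variables.
Let `ε x = (adm e x, x)`. For `p = (y, ν y - y ν)`: `tr ([ν, x] y) + tr (x (ν y - y ν)) = 0`, so
(C) `([ν, x], x)` satisfies `Van ν` for all `x ∈ gl_m`, `ν ∈ 𝔫`. `cen`: let `x k` commute with `e`. Then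
`adm e (x k) = 0`, `x k` is upper triangular (Cen), so `tr (x k * μ) = 0` for `μ ∈ 𝔫` and
`cov (ε (x k)) = 0`; use `IsPD.zero`. `bor`: let `ν = e` (as element of `nil m`); `cj b e = e`; `IsPD.equi` with
`ξ = ε ∘ x` (C) gives `ev2 (g b) e (Q ξ) = ev2 g e (Q (cj b⁻¹ ξ))` and `cj b⁻¹ (adm e x) =
adm e (cj b⁻¹ x)` (`cj_mul`, `b` commutes with `e`, so does `b⁻¹`). `tor`: `t` is diagonal with
entries `t_i = c^(m-1-2i)`, so `t⁻¹` is diagonal with entries `t_i⁻¹`, `(cj t e) i (i+1) =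
t_i⁻¹ t_(i+1) = c^(-2)`, that is `cj t (c² • e) = e` and `cj t⁻¹ e = c² • e`. `IsPD.equi` with
`b = t`, `ν = c² • e` (note that `cjN t ht (c² • e)` has coercion `e`), `ξ = ε ∘ x`: `ev2 (g t) e (Q ξ) =
ev2 g (c² • e) (Q ξ')` with `ξ' k = (cj t⁻¹ (adm e (x k)), cj t⁻¹ (x k)) = ([c² • e, x' k], x' k)`,
`x' k = cj t⁻¹ (x k)`. It satisfies `Van (c² • e)` by (C), and `IsPD.wt` (weight `-j`) gives
`= c^(-j) * ev2 g e (Q (fun k => ([c² • e, x' k], c² • x' k))) = c^(-j) * ev2 g e (Q (fun k => c² • ε (x' k)))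
= c^(-j) * (c²)^j * ev2 g e (Q (ε ∘ x')) = c^j * ... = ev2 g e (Q (fun k => ε (c • x' k)))`
(`MultilinearMap.map_smul_univ` / `AlternatingMap.map_smul_univ`).
*Uses*: Cen. -/
def PhiStmt : Prop := ∀ (m j : ℕ) (Q : (Gl m × Gl m) [⋀^Fin j]→ₗ[ℂ] Pl2 m), IsPD (-(j : ℤ)) Q →
  IsPhi (phi Q) ∧ ∀ (g : Gl m) (x : Fin j → Gl m),
    evm g (phi Q x) = ev2 g (ee m) (Q fun k => (adm (ee m) (x k), x k))

/-- **Reg.** Every cotangent vector at `(g, e)` is given by a matrix.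

*Proof*. `ξ = (α, β)`, `γ = α + β e - e β`. For `y ∈ 𝔰𝔩_m` upper triangular, `Van` for
`p = (y, e y - y e)` says `tr (γ y) = 0`. `y = E i j` (`i < j`): `γ j i = 0`; `y = E i i - E 0 0`:
`γ i i = γ 0 0 =: c`. So `γ = c • 1 + ν₀`, `ν₀ ∈ 𝔫`. There is an upper triangular `u` with
`e u - u e = ν₀`: define `U : ℕ → ℕ → ℂ` by `U 0 j = 0`, `U (i+1) 0 = ν₀ i 0`,
`U (i+1) (j+1) = ν₀ i (j+1) + U i j` (with `ν₀` extended by `0`), `u i j = U i j`; by induction `U i j = 0` for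
`j < i` (`ν₀ i j = 0` for `j ≤ i`), and `(e u - u e) i j = u (i+1) j - u i (j-1) = ν₀ i j` (in the row
`i = m - 1`: `u (m-1) (j-1) = 0 = ν₀ (m-1) j`; in the column `j = 0`: `u (i+1) 0 = 0 = ν₀ i 0`). Take
`x = β + u`: `adm e x = e β - β e + ν₀ = α - c • 1`, and `cov (adm e x, x) (y, μ) = tr (α y) - c tr y +
tr (β μ) + tr (u μ)` with `tr y = 0`, `tr (u μ) = 0`.
*Uses*: nothing. -/
def RegStmt : Prop := ∀ (m : ℕ) (ν : nil m), (ν : Gl m) = ee m → ∀ ξ : Gl m × Gl m, Van ν ξ →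
  ∃ x : Gl m, cov ξ = cov (adm (ee m) x, x)

/-- **Cnj.** Regular elements of `𝔫` are conjugate to `e` under `B`.

*Proof*. Let `b₀ i k = (ν^(m-1-k)) i (m-1)`. Powers: `(ν^r) i l = 0` unless `i + r ≤ l` (induction), and
`(ν^r) i (i+r)` is the product of the entries `ν a (a+1)`, `i ≤ a < i + r`, so it is `≠ 0`. Hence `b₀` is upper
triangular with nonzero diagonal, `det b₀ ≠ 0` (`Matrix.det_of_upperTriangular`). `(ν b₀) i k =
(ν^(m-k)) i (m-1)` and `(b₀ e) i k = b₀ i (k-1) = (ν^(m-k)) i (m-1)` for `k ≥ 1`; for `k = 0` both are `0`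
(`ν^m = 0`). So `ν b₀ = b₀ e`. Choose `κ` with `κ^m * det b₀ = 1` (`m ≥ 1`; `IsAlgClosed.exists_pow_nat_eq`) and
`b = κ • b₀ ∈ SL_m` (`Matrix.det_smul`). Then `ν b = b e` and `cj b ν = b⁻¹ ν b = e`.
*Uses*: nothing. -/
def CnjStmt : Prop := ∀ m : ℕ, 1 ≤ m → ∀ ν : nil m,
  (∀ i j : Fin m, (j : ℕ) = (i : ℕ) + 1 → (ν : Gl m) i j ≠ 0) →
  ∃ b : SLm m, Upper (b : Gl m) ∧ cj b (ν : Gl m) = ee m

/-- **Dns.** From the fibre over `e` to all of `Ñ`.

*Proof*. (0) If `cov (ξ i) = cov (ξ' i)` for all `i` then `Q ξ = Q ξ'`: change one argument at a time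
(induction over a finset of indices, or `MultilinearMap.map_sub`/`map_update_sub`), the difference has
an argument with `cov = 0`, use `IsPD.zero`. (1) Let `ν` be regular (all `ν i (i+1) ≠ 0`), `b` from
Cnj, `ξ` with `Van ν`. Put `ξ' i = (cj b (ξ i).1, cj b (ξ i).2)`; it satisfies `Van (cjN b hb ν)`: for
`p ∈ orb (cjN b hb ν)` the pair `cjT b⁻¹ p` lies in `orb ν` and `cov ξ' p = cov ξ (cjT b⁻¹ p)` (direct
computation with the trace, `cj b⁻¹ (cj b ν) = ν`). By `IsPD.equi` `ev2 g ν (Q ξ) = ev2 (g b) e (Q ξ')`. By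
Reg and (0) `Q ξ' = Q (fun i => (adm e (x i), x i))` for some `x`, so by the formula of Phi
`ev2 g ν (Q ξ) = evm (g b) (phi Q x)` with `x` independent of `g`; by hypothesis it does not depend
on `g`. (2) Let `ν` be arbitrary, `ν_t = ν + t • e`, `ξ_t i = ((ξ i).1 + t • ((e β - β e)), β)`, `β = (ξ i).2`.
It satisfies `Van ν_t` (for `y` upper triangular traceless, `tr (β (ν_t y - y ν_t)) =
tr (β (ν y - y ν)) + t tr ((β e - e β) y)`). `ν_t` is regular if `ν i (i+1) + t ≠ 0` for all `i`, that is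
for all but finitely many `t`. By multilinearity and since `ev2 g ν_t` of a polynomial is a polynomial in `t`,
the function `t ↦ ev2 g ν_t (Q ξ_t) - ev2 g' ν_t (Q ξ_t)` is continuous (expand `Q ξ_t` by
`MultilinearMap.map_add_univ` and `map_smul`; every `t ↦ ev2 g ν_t P` is continuous), it vanishes
for all but finitely many `t`, so it vanishes at `t = 0` (a cofinite set is dense in `ℂ`).
*Uses*: Phi, Reg, Cnj. -/
def DnsStmt : Prop := ∀ (m j : ℕ), 1 ≤ m → ∀ (Q : (Gl m × Gl m) [⋀^Fin j]→ₗ[ℂ] Pl2 m),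
  IsPD (-(j : ℤ)) Q →
  (∀ (x : Fin j → Gl m) (g g' : SLm m), evm (g : Gl m) (phi Q x) = evm (g' : Gl m) (phi Q x)) →
  ∀ (g g' : SLm m) (ν : nil m) (ξ : Fin j → Gl m × Gl m), (∀ i, Van ν (ξ i)) →
    ev2 (g : Gl m) (ν : Gl m) (Q ξ) = ev2 (g' : Gl m) (ν : Gl m) (Q ξ)

/-- **Dev.** Derivative of the value of a polynomial along a curve.

*Proof*. `MvPolynomial.induction_on`: constants; sums; `P * X q`: product rule on both sides
(`Derivation.leibniz`), and `evm (γ t₀) (Rd y (X q)) = ∑_k y k q.2 * γ t₀ q.1 k = (γ t₀ * y) q.1 q.2`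
(`Rd_X`).
*Uses*: nothing. -/
def DevStmt : Prop := ∀ (m : ℕ) (P : Pl m) (γ : ℂ → Gl m) (y : Gl m) (t₀ : ℂ),
  (∀ i j : Fin m, HasDerivAt (fun t => γ t i j) ((γ t₀ * y) i j) t₀) →
  HasDerivAt (fun t => evm (γ t) P) (evm (γ t₀) (Rd y P)) t₀

/-- **Dml.** Derivative of a multilinear form along curves.

*Proof*. Expand: `M x = ∑_(r : Fin j → Fin m × Fin m) (∏_k x k (r k).1 (r k).2) * M (fun k => E (r k).1 (r k).2)`
(`Matrix.matrix_eq_sum_single`, `MultilinearMap.map_sum`, `map_smul_univ`). Differentiate the finite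
products (`HasDerivAt.fun_finset_prod`): the derivative is the sum over `k` of the products where the `k`-th factor
is replaced by `δ k (r k).1 (r k).2`, and reading the expansion backwards this is
`∑_k M (update (γ · t₀) k (δ k))`. (Or: `M` is a continuous multilinear map since `Gl m` is
finite-dimensional, and use `HasFDerivAt.multilinear_comp`.)
*Uses*: nothing. -/
def DmlStmt : Prop := ∀ (m j : ℕ) (M : MultilinearMap ℂ (fun _ : Fin j => Gl m) ℂ)
  (γ : Fin j → ℂ → Gl m) (δ : Fin j → Gl m) (t₀ : ℂ),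
  (∀ (k : Fin j) (a b : Fin m), HasDerivAt (fun t => γ k t a b) (δ k a b) t₀) →
  HasDerivAt (fun t => M fun k => γ k t)
    (∑ k, M (Function.update (fun l => γ l t₀) k (δ k))) t₀

/-- **Jpr.** The derivations `Rd y`: bracket, and the ideal of `SL_m`.

*Proof*. (1) Both sides are derivations in `P` (the commutator of two derivations is one, `⁅Rd y, Rd z⁆`), so
compare on `X q` (`MvPolynomial.derivation_ext`): `Rd y (Rd z (X q)) = ∑_k z k q.2 • ∑_l y l k • X (q.1, l) =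
∑_l (y z) l q.2 • X (q.1, l)`. (2) Let `I` be the set of the `y` such that `Rd y` maps the set `N` of
polynomials vanishing on `SL_m` into itself: a linear subspace (`Rd_add`, `Rd_smul`), closed under
commutators by (1). It contains `E i j`, `i ≠ j`: for `P ∈ N`, `g ∈ SL_m`, the curve
`g (1 + t E i j)` lies in `SL_m` (`Matrix.transvection`, `det_transvection_of_ne`), so
`t ↦ evm (g (1 + t E i j)) P` is `0` and its derivative at `0`, `evm g (Rd (E i j) P)` (Dev), is `0`. A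
traceless `y` is `∑_(i ≠ j) y i j E i j + ∑_(i ≠ 0) y i i (E i i - E 0 0)` and
`E i i - E 0 0 = [E i 0, E 0 i]`.
*Uses*: Dev. -/
def JprStmt : Prop := ∀ m : ℕ,
  (∀ (y z : Gl m) (P : Pl m), Rd y (Rd z P) - Rd z (Rd y P) = Rd (y * z - z * y) P) ∧
  ∀ y : Gl m, y.trace = 0 → ∀ P : Pl m, (∀ g : SLm m, evm (g : Gl m) P = 0) →
    ∀ g : SLm m, evm (g : Gl m) (Rd y P) = 0

/-- **Act.** The operators `act A`.

*Proof*. (1) `act A (act A' Ψ) x = ∑_k ∑_l Ψ (update (update x k (A (x k))) l (A' (update x k (A (x k)) l)))`; the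
terms with `l ≠ k` are symmetric under `(A, k) ↔ (A', l)` (`Function.update_comm`) and cancel in the commutator;
the terms `l = k` are `Ψ (update x k (A' (A (x k))))`. So the commutator is
`∑_k Ψ (update x k ((A' A - A A') (x k)))`. (2) clear (`RW_apply`, `act_apply`, `map_sum`). (3) clear. (4) Let
`x k` commute with `e`: in `act A Ψ x = ∑_l Ψ (update x l (A (x l)))` the argument number `k` is `x k` or
`A (x k)`, which commutes with `e`. (5) clear.
*Uses*: nothing. -/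
def ActStmt : Prop := ∀ m j : ℕ,
  (∀ (A A' : Module.End ℂ (Gl m)) (Ψ : Wm m j),
    act A (act A' Ψ) - act A' (act A Ψ) = act (A' * A - A * A') Ψ) ∧
  (∀ (y : Gl m) (A : Module.End ℂ (Gl m)) (Ψ : Wm m j), RW y (act A Ψ) = act A (RW y Ψ)) ∧
  (∀ (A : Module.End ℂ (Gl m)), ∀ Ψ ∈ JJ m j, act A Ψ ∈ JJ m j) ∧
  (∀ A : Module.End ℂ (Gl m), (∀ x : Gl m, ee m * x = x * ee m → ee m * A x = A x * ee m) →
    ∀ Ψ ∈ W0 m j, act A Ψ ∈ W0 m j) ∧
  ∀ A : Module.End ℂ (Gl m), (∀ x : Gl m, ee m * A x = A x * ee m) →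
    ∀ Ψ ∈ W0 m j, act A Ψ ∈ JJ m j

/-- **Lia.** `SS Φ` is a Lie algebra.

*Proof*. Let `(y, A), (y', A') ∈ SS Φ`; `tr (y y' - y' y) = 0`. With `T = RW y - act A`, `T' = RW y' - act A'`,
`T Φ, T' Φ ∈ JJ`, and `T`, `T'` map `JJ` into itself (Jpr (2), Act (3)); so `T (T' Φ) - T' (T Φ) ∈ JJ`. By
Jpr (1), Act (1), (2) this is `RW (y y' - y' y) Φ - act (A A' - A' A) Φ`.
*Uses*: Jpr, Act. -/
def LiaStmt : Prop := ∀ (m j : ℕ) (Φ : Wm m j), ∀ p ∈ SS Φ, ∀ q ∈ SS Φ,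
  (p.1 * q.1 - q.1 * p.1, p.2 * q.2 - q.2 * p.2) ∈ SS Φ

/-- **Pow.** `(e^k, ad e^k) ∈ 𝔰`.

*Proof*. Let `N = e^k`, `k ≥ 1`; `N` is strictly upper triangular (Epw), `tr N = 0`, `N^m = 0`. For `t ∈ ℂ` let
`b t = 1 + t N ∈ SL_m` (upper triangular with diagonal `1`, `Matrix.det_of_upperTriangular`), it commutes with `e`; its inverse is
`∑_(i < m) (-t)^i N^i`, so the entries of `(b t)⁻¹` have derivative `-N` at `t = 0` (value `1` at `0`; for `m = 0`
there is nothing to prove).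
`IsPhi.bor`: `evm (g (b t)) (Φ x) = evm g (Φ (fun l => b t * x l * (b t)⁻¹))` for all `t`. Differentiate at `t = 0`: left,
Dev with `γ t = g (b t)`: `evm g (Rd N (Φ x))`; right, Dml with `M = evm g ∘ Φ`,
`δ l = N x l - x l N = adm N (x l)`: `∑_l evm g (Φ (update x l (adm N (x l)))) = evm g (act (adm N) Φ x)`. Uniqueness of the
derivative.
*Uses*: Epw, Dev, Dml. -/
def PowStmt : Prop := ∀ (m j : ℕ) (Φ : (Gl m) [⋀^Fin j]→ₗ[ℂ] Pl m), IsPhi Φ → ∀ k : ℕ, 1 ≤ k →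
  (ee m ^ k, adm (ee m ^ k)) ∈ SS Φ.toMultilinearMap

/-- **Tor.** `(h, ad h + 1) ∈ 𝔰`.

*Proof*. For `c ≠ 0` the diagonal matrix `t c` with entries `c^(m-1-2i)` is in `SL_m` (the exponents add up to `0`); its
inverse is the diagonal matrix with the inverse entries. `IsPhi.tor`: `evm (g (t c)) (Φ x) =
evm g (Φ (fun k => c • (t c * x k * (t c)⁻¹)))` for `c` near `1`. Differentiate at `c = 1`: `γ c = g * diag`,
entries `g i j c^(m-1-2j)`, derivative `(g h) i j` (`hasDerivAt_zpow`); right: the entries are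
`c^(1+2(b-a)) x a b`, derivative `(1 + 2(b-a)) x a b = (adm h x + x) a b` (Tri). Dev, Dml (use curves defined for all
`c`, and `HasDerivAt.congr_of_eventuallyEq`). `tr h = 0`.
*Uses*: Tri, Dev, Dml. -/
def TorStmt : Prop := ∀ (m j : ℕ) (Φ : (Gl m) [⋀^Fin j]→ₗ[ℂ] Pl m), IsPhi Φ →
  (hh m, adm (hh m) + 1) ∈ SS Φ.toMultilinearMap

/-- **Nlp.** Local nilpotency.

*Proof*. (a) `D^(2m) = 0`: `D^(i+1) (v d i) = 0` by induction on `i` (IsFp, `i ≤ 2d < 2m`), then Bas. (b) `act D` is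
nilpotent: it is the sum of the commuting operators `D_k` (`D` in the argument `k`), with `D_k^(2m) = 0`. (c) For each
polynomial `P` there is `n` with `(Rd f)^n P = 0`: for `X q`: `(Rd f)^n (X q) = ∑_k (f^n) k q.2 • X (q.1, k)` and
`f^m = 0` (Epw); the set of such `P` is closed under sums and products (Leibniz:
`(Rd f)^(n+n') (P P') = ∑ C(n+n', i) (Rd f)^i P (Rd f)^(n+n'-i) P'`), contains constants. (d) For
`Ψ : Wm m j` there is `n` with `(RW f)^n Ψ = 0`: `Ψ` is determined by its finitely many values at tuples of basis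
vectors (matrix units; `Module.Basis.ext_multilinear`), take the maximum. (e) `RW f` and `act D` commute
(Act (2)), so `(RW f - act D)^(n+n') Ψ = ∑ ± C(n+n', i) (act D)^(n+n'-i) (RW f)^i Ψ = 0` (`Commute.add_pow`).
*Uses*: Epw, Bas, Act. -/
def NlpStmt : Prop := ∀ (m j : ℕ) (D : Module.End ℂ (Gl m)), IsFp m D → ∀ Ψ : Wm m j,
  ∃ N : ℕ, ((RW (ff m) - act D : Module.End ℂ (Wm m j)) ^ N) Ψ = 0

/-- **Slt.** The `sl_2` lemma (abstract).

*Proof*. By induction on `n`: (a) `F^n v ∈ W`; (b) `H (F^n v) + 2 n • F^n v ∈ J`: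
`H F^(n+1) v = F H F^n v - 2 F^(n+1) v`; (c) `E (F^(n+1) v) + n (n+1) • F^n v ∈ J`: for `n = 0`
`E F v = F E v + H v` modulo `J`, and `F J ⊆ J`; step: `E F^(n+2) v = F E F^(n+1) v + H F^(n+1) v =
-n(n+1) F^(n+1) v - 2(n+1) F^(n+1) v` modulo `J` (a, b). Let `N` be minimal with `F^N v ∈ J` (`Nat.find`). If
`N = n + 2` then `E F^(n+2) v ∈ J`, so by (c) for `n + 1` `(n+1)(n+2) • F^(n+1) v ∈ J`, against minimality. So
`N ≤ 1`, and `F v ∈ J` (`F J ⊆ J`).
*Uses*: nothing. -/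
def SltStmt : Prop := ∀ (V : Type) [AddCommGroup V] [Module ℂ V] (W J : Submodule ℂ V)
  (E H F : Module.End ℂ V), (∀ v ∈ J, E v ∈ J) → (∀ v ∈ J, H v ∈ J) → (∀ v ∈ J, F v ∈ J) →
  (∀ v ∈ W, F v ∈ W) → (∀ v ∈ W, E (F v) - F (E v) - H v ∈ J) →
  (∀ v, H (F v) - F (H v) = (-2 : ℂ) • F v) → ∀ v ∈ W, E v ∈ J → H v ∈ J →
  (∃ N : ℕ, (F ^ N) v ∈ J) → F v ∈ J

/-- **Fff.** `(f, f') ∈ 𝔰`.

*Proof*. Slt with `V = Wm m j`, `W = W0`, `J = JJ`, `E = RW e - act (adm e)`, `H = RW h - act (adm h + 1)`,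
`F = RW f - act D`, `v = Φ ∈ W0` (`IsPhi.cen`). `E`, `H`, `F` preserve `JJ` (Jpr (2): the traces of `e`, `h`, `f`
vanish; Act (3)). `F` preserves `W0`: `RW f` by Jpr (2), `act D` by Act (4) (`D` kills the centraliser of
`e`, Cen). On `W0` `E F - F E - H = -act A₀` by Jpr (1), Act (1), (2) and Tri, where
`A₀ = adm e * D - D * adm e - adm h - 1`; `A₀` maps everything into the centraliser of `e`: on `v d i`, `i < 2d`,
`A₀ (v d i) = (i(2d-i) - (i+1)(2d-i-1) - (2i-2d) - 1) • v d i = 0` (for `i = 0` the first term is `0`), and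
`A₀ (v d (2d)) = -(2d+1) • v d (2d)` (Van, `D (v d (2d)) = 0`), Bas; so `act A₀` maps `W0` into `JJ` by Act (5).
`H F - F H = -2 F`: `[h, f] = -2 f` and `adm h * D - D * adm h = -2 D` (basis). `E Φ ∈ JJ` by Pow (`k = 1`), `H Φ ∈ JJ` by
Tor, `F^N Φ = 0` by Nlp. So `F Φ ∈ JJ`, and `tr f = 0`.
*Uses*: Tri, Str, Van, Bas, Cen, Jpr, Act, Pow, Tor, Nlp, Slt. -/
def FffStmt : Prop := ∀ (m j : ℕ) (Φ : (Gl m) [⋀^Fin j]→ₗ[ℂ] Pl m), IsPhi Φ →
  ∀ D : Module.End ℂ (Gl m), IsFp m D → (ff m, D) ∈ SS Φ.toMultilinearMap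

/-- **Con.** A polynomial with vanishing derivatives is constant on `SL_m`.

*Proof*. Let `H = {x ∈ SL_m | ∀ g ∈ SL_m, evm (g x) P = evm g P}`, a subgroup. (1) `1 + c E i j ∈ H` (`i ≠ j`): the
curve `γ t = g (1 + t E i j)` lies in `SL_m` and `γ t * E i j = g E i j` (`E i j` squares to `0`), so by Dev
`t ↦ evm (γ t) P` has derivative `evm (γ t) (Rd (E i j) P) = 0` everywhere, it is constant
(`is_const_of_deriv_eq_zero`). (2) Diagonal matrices of determinant `1`: entries `d_i = exp a_i`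
with `∑ a_i = 0` (`Complex.exp_eq_one_iff`: correct one `a_i` by a multiple of `2πi`); the curve `γ t = g diag (exp (t a_i))` lies in `SL_m`,
its derivative is `γ t * diag a`, so again constant. (3) By
`Matrix.Pivot.exists_list_transvec_mul_diagonal_mul_list_transvec` every `x ∈ SL_m` is a product of transvections,
a diagonal matrix (of determinant `1`) and transvections. So `H = SL_m` and `evm g P = evm 1 P`.
*Uses*: Dev. -/
def ConStmt : Prop := ∀ (m : ℕ) (P : Pl m),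
  (∀ y : Gl m, y.trace = 0 → ∀ g : SLm m, evm (g : Gl m) (Rd y P) = 0) →
  ∀ g g' : SLm m, evm (g : Gl m) P = evm (g' : Gl m) P

/-- **Mtw.** The case `m = 2`.

*Proof*. If `j` is odd, `Φ` vanishes on `SL_2`: `IsPhi.bor` with `b = -1` gives `evm (-g) (Φ x) = evm g (Φ x)`, `IsPhi.tor` with
`c = -1`, `t = diag (-1, (-1)^(-1)) = -1` gives `evm (-g) (Φ x) = evm g (Φ (-x)) = (-1)^j evm g (Φ x)`; so
`evm g (Φ x) = 0`; use Act (3). Let `j` be even; we show `act A Φ = 0` for `A = adm e` and `A = D`. A basis of `gl_2` is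
`1 = v 0 0`, `u = f = v 1 0`, `w = h = v 1 1`, `v 1 2 = -2 e` (Bas, or direct). `adm e u = w`,
`adm e w = -2 e`, `adm e 1 = adm e e = 0`; `D 1 = 0`, `D u = 0`, `D w = u`, `D (v 1 2) = 0` (IsFp). `Φ` vanishes if an argument is
`1` or `e` (`IsPhi.cen`). By multilinearity take all `x l` in the basis. If some `x l ∈ {1, v 1 2}`: the
terms `k ≠ l` of `∑_k Φ (update x k (A (x k)))` vanish by `IsPhi.cen`, the term `k = l` since `A (x l) = 0`. Otherwise all
`x l ∈ {u, w}`. `j = 0`: empty sum. `j ≥ 3`: in every term two arguments are equal or one of them is a multiple of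
`e` or `0`: it vanishes. `j = 2`: `(u, u)` and `(w, w)`: `Φ (A u, u) + Φ (u, A u) = 0` by antisymmetry; `(u, w)`:
`adm e`: `Φ (w, w) + Φ (u, -2 e) = 0`, `D`: `Φ (0, w) + Φ (u, u) = 0`; `(w, u)` likewise.
*Uses*: Bas, Act. -/
def MtwStmt : Prop := ∀ (j : ℕ) (Φ : (Gl 2) [⋀^Fin j]→ₗ[ℂ] Pl 2), IsPhi Φ →
  ∀ D : Module.End ℂ (Gl 2), IsFp 2 D →
  act (adm (ee 2)) Φ.toMultilinearMap ∈ JJ 2 j ∧ act D Φ.toMultilinearMap ∈ JJ 2 j

/-- **Cst.** `Φ` is constant on `SL_m`.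

*Proof*. `D` from Efp, `S = SS Φ`. `IsS m D S`: `brk` by Lia, `pow` by Pow, `fp` by Fff, `cen`: if the values of `A` commute with `e`
then `act A Φ ∈ JJ` by Act (5) (`Φ ∈ W0` by `IsPhi.cen`), and `RW 0 Φ = 0` (`Rd_zero`). If `m ≥ 3`, AA gives
`(y, 0) ∈ S` for all `y` of trace `0`. If `m = 2`: `(e, 0) = (e, adm e) - (0, adm e) ∈ S` by Mtw, `e^k = 0` for `k ≥ 2`
(Epw), `(f, 0) ∈ S`; Gen gives the same. So `Rd y (Φ x) - (act 0 Φ) x = Rd y (Φ x)` vanishes on `SL_m`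
(`act 0 = 0`), and Con applies to `P = Φ x`.
*Uses*: Epw, Efp, Gen, AA, Act, Lia, Pow, Fff, Con, Mtw. -/
def CstStmt : Prop := ∀ (m j : ℕ), 2 ≤ m → ∀ (Φ : (Gl m) [⋀^Fin j]→ₗ[ℂ] Pl m), IsPhi Φ →
  ∀ (x : Fin j → Gl m) (g g' : SLm m), evm (g : Gl m) (Φ x) = evm (g' : Gl m) (Φ x)

/-- **Mai.** `MainStmt` follows.

*Proof*. Pdd with `k = -j` gives `Q`; Phi: `IsPhi (phi Q)`; Cst; Dns; the last part of Pdd with `g' = g` and
`x⁻¹ * g`.
*Uses*: Pdd, Phi, Dns, Cst. -/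
def MaiStmt : Prop := PddStmt → PhiStmt → DnsStmt → CstStmt → MainStmt

end MP3b
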