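import Mathlib

/-!
# Polyvector fields on the Springer resolution of `SL_m`: the definitions of the final statement

`G = SL_m(ℂ)`, `B` = upper triangular matrices in `G`, `𝔫` = strictly upper triangular matrices,
`Ñ = G ×_B 𝔫`, that is the quotient of `G × 𝔫` by `(g, ν) b = (g b, b⁻¹ ν b)`, `b ∈ B`.

* The tangent space of `Ñ` at the class of `(g, ν)` is `Tan m ν = (𝔰𝔩_m × 𝔫) / OrbT m ν`: the pair
  `(y, μ)` is the derivative of the curve `(g exp(t y), ν + t μ)` and `OrbT m ν` is the tangent space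
  of the orbit of `B`, `{(y, ν y - y ν) | y ∈ 𝔰𝔩_m upper triangular}`.
* A polyvector field (section of `⋀^j T Ñ`) is a function `val g ν ∈ ⋀^j (Tan m ν)` on `G × 𝔫` which
  is regular (it lifts to a polynomial map from `G × 𝔫` to `⋀^j (𝔰𝔩_m × 𝔫)`) and `B`-equivariant.
* The group `G` acts by `(x s) (g, ν) = s (x⁻¹ g, ν)`; the torus `ℂ^*` acts by the dilations
  `(g, ν) ↦ (g, c² ν)`, normalised such that linear functions on the fibres have weight `2` and
  constant vertical vector fields have weight `-2`.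
-/

set_option autoImplicit false

namespace MP3s

open Matrix

/-- The matrices of size `m` over `ℂ`. -/
abbrev Gl (m : ℕ) := Matrix (Fin m) (Fin m) ℂ

/-- The group `SL_m(ℂ)`. -/
abbrev SLm (m : ℕ) := Matrix.SpecialLinearGroup (Fin m) ℂ

/-- The matrix of an element of `SL_m(ℂ)`. -/
def mat {m : ℕ} (g : SLm m) : Gl m := g.1

/-- Upper triangular matrices. -/
def Upper {m : ℕ} (y : Gl m) : Prop := ∀ i j : Fin m, j < i → y i j = 0

/-- Strictly upper triangular matrices. -/
def Strict {m : ℕ} (y : Gl m) : Prop := ∀ i j : Fin m, j ≤ i → y i j = 0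

theorem strict_add {m : ℕ} {a b : Gl m} (ha : Strict a) (hb : Strict b) : Strict (a + b) := by
  intro i j hij
  rw [Matrix.add_apply, ha i j hij, hb i j hij, add_zero]

theorem strict_zero {m : ℕ} : Strict (0 : Gl m) := fun _ _ _ => rfl

theorem strict_smul {m : ℕ} (c : ℂ) {a : Gl m} (ha : Strict a) : Strict (c • a) := by
  intro i j hij
  rw [Matrix.smul_apply, ha i j hij, smul_zero]

theorem upper_add {m : ℕ} {a b : Gl m} (ha : Upper a) (hb : Upper b) : Upper (a + b) := by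
  intro i j hij
  rw [Matrix.add_apply, ha i j hij, hb i j hij, add_zero]

theorem upper_zero {m : ℕ} : Upper (0 : Gl m) := fun _ _ _ => rfl

theorem upper_smul {m : ℕ} (c : ℂ) {a : Gl m} (ha : Upper a) : Upper (c • a) := by
  intro i j hij
  rw [Matrix.smul_apply, ha i j hij, smul_zero]

/-- The vector space `𝔫` of the strictly upper triangular matrices. -/
def nilSub (m : ℕ) : Submodule ℂ (Gl m) where
  carrier := {a | Strict a}
  add_mem' := strict_add
  zero_mem' := strict_zero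
  smul_mem' c _ := strict_smul c

/-- The vector space `𝔫` of the strictly upper triangular matrices, as a type. -/
def Nn (m : ℕ) : Type := nilSub m

/-- The vector space `𝔰𝔩_m` of the matrices of trace `0`, as a type. -/
def Sl (m : ℕ) : Type := LinearMap.ker (Matrix.traceLinearMap (Fin m) ℂ ℂ)

instance acgNn (m : ℕ) : AddCommGroup (Nn m) := (nilSub m).addCommGroup

instance modNn (m : ℕ) : Module ℂ (Nn m) := (nilSub m).module

instance acgSl (m : ℕ) : AddCommGroup (Sl m) :=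
  (LinearMap.ker (Matrix.traceLinearMap (Fin m) ℂ ℂ)).addCommGroup

instance modSl (m : ℕ) : Module ℂ (Sl m) :=
  (LinearMap.ker (Matrix.traceLinearMap (Fin m) ℂ ℂ)).module

/-- The matrix of an element of `𝔫`. -/
def matN {m : ℕ} (ν : Nn m) : Gl m := ν.1

/-- The matrix of an element of `𝔰𝔩_m`. -/
def matS {m : ℕ} (y : Sl m) : Gl m := y.1

/-- `𝔰𝔩_m × 𝔫`: the pair `(y, μ)` is the derivative of the curve `(g exp(t y), ν + t μ)` at the point
`(g, ν)` of `G × 𝔫`. -/
def Tot (m : ℕ) : Type := Sl m × Nn m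

instance acgTot (m : ℕ) : AddCommGroup (Tot m) := Prod.instAddCommGroup

instance modTot (m : ℕ) : Module ℂ (Tot m) := Prod.instModule

/-- `p = (y, μ)` is tangent at `(g, ν)` to the orbit of `B`: `y` is upper triangular and
`μ = ν y - y ν`. -/
def IsOrb {m : ℕ} (ν : Nn m) (p : Tot m) : Prop :=
  Upper (matS p.1) ∧ matN p.2 = matN ν * matS p.1 - matS p.1 * matN ν

theorem isOrb_add {m : ℕ} {ν : Nn m} {p q : Tot m} (hp : IsOrb ν p) (hq : IsOrb ν q) :
    IsOrb ν (p + q) := by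
  refine ⟨upper_add hp.1 hq.1, ?_⟩
  change matN p.2 + matN q.2 =
    matN ν * (matS p.1 + matS q.1) - (matS p.1 + matS q.1) * matN ν
  rw [hp.2, hq.2, mul_add, add_mul]
  abel

theorem isOrb_zero {m : ℕ} {ν : Nn m} : IsOrb ν (0 : Tot m) := by
  refine ⟨upper_zero, ?_⟩
  change (0 : Gl m) = matN ν * (0 : Gl m) - (0 : Gl m) * matN ν
  rw [mul_zero, zero_mul, sub_zero]

theorem isOrb_smul {m : ℕ} {ν : Nn m} (c : ℂ) {p : Tot m} (hp : IsOrb ν p) :
    IsOrb ν (c • p) := by
  refine ⟨upper_smul c hp.1, ?_⟩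
  change c • matN p.2 = matN ν * (c • matS p.1) - (c • matS p.1) * matN ν
  rw [hp.2, mul_smul_comm, smul_mul_assoc, smul_sub]

/-- The tangent space at `(g, ν)` of the orbit of `B`. -/
def OrbT {m : ℕ} (ν : Nn m) : Submodule ℂ (Tot m) where
  carrier := {p | IsOrb ν p}
  add_mem' := isOrb_add
  zero_mem' := isOrb_zero
  smul_mem' c _ := isOrb_smul c

/-- The tangent space of `Ñ = G ×_B 𝔫` at the class of `(g, ν)`. -/
def Tan {m : ℕ} (ν : Nn m) : Type := Tot m ⧸ OrbT ν

instance acgTan {m : ℕ} (ν : Nn m) : AddCommGroup (Tan ν) :=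
  Submodule.Quotient.addCommGroup (OrbT ν)

instance modTan {m : ℕ} (ν : Nn m) : Module ℂ (Tan ν) :=
  Submodule.Quotient.module (OrbT ν)

/-- The projection `𝔰𝔩_m × 𝔫 → Tan ν`. -/
def proj {m : ℕ} (ν : Nn m) : Tot m →ₗ[ℂ] Tan ν := (OrbT ν).mkQ

/-- The `j`-th exterior power of a vector space. -/
def Wedge (j : ℕ) (V : Type) [AddCommGroup V] [Module ℂ V] : Type := ⋀[ℂ]^j V

noncomputable instance acgWedge (j : ℕ) (V : Type) [AddCommGroup V] [Module ℂ V] :
    AddCommGroup (Wedge j V) := (⋀[ℂ]^j V).addCommGroup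

noncomputable instance modWedge (j : ℕ) (V : Type) [AddCommGroup V] [Module ℂ V] :
    Module ℂ (Wedge j V) := (⋀[ℂ]^j V).module

/-- The map induced on the `j`-th exterior powers by a linear map. -/
noncomputable def wmap {V W : Type} [AddCommGroup V] [Module ℂ V] [AddCommGroup W] [Module ℂ W]
    (j : ℕ) (f : V →ₗ[ℂ] W) : Wedge j V → Wedge j W := exteriorPower.map j f

theorem blockTriangular_of_upper {m : ℕ} {y : Gl m} (h : Upper y) : y.BlockTriangular id :=
  fun i j hij => h i j hij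

theorem upper_mul {m : ℕ} {x y : Gl m} (hx : Upper x) (hy : Upper y) : Upper (x * y) :=
  fun i j hij => ((blockTriangular_of_upper hx).mul (blockTriangular_of_upper hy)) hij

theorem mat_inv_mul {m : ℕ} (b : SLm m) : mat b⁻¹ * mat b = 1 := by
  change ((b⁻¹ : SLm m) : Gl m) * (b : Gl m) = 1
  rw [← Matrix.SpecialLinearGroup.coe_mul, inv_mul_cancel, Matrix.SpecialLinearGroup.coe_one]

theorem mat_mul_inv {m : ℕ} (b : SLm m) : mat b * mat b⁻¹ = 1 := by
  change (b : Gl m) * ((b⁻¹ : SLm m) : Gl m) = 1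
  rw [← Matrix.SpecialLinearGroup.coe_mul, mul_inv_cancel, Matrix.SpecialLinearGroup.coe_one]

theorem upper_inv {m : ℕ} {b : SLm m} (hb : Upper (mat b)) : Upper (mat b⁻¹) := by
  have h1 : mat b⁻¹ = (mat b)⁻¹ := by
    symm
    exact Matrix.inv_eq_left_inv (mat_inv_mul b)
  have : Invertible (mat b) := ⟨mat b⁻¹, mat_inv_mul b, mat_mul_inv b⟩
  intro i j hij
  rw [h1]
  exact (Matrix.blockTriangular_inv_of_blockTriangular (blockTriangular_of_upper hb)) hij

theorem strict_mul_upper {m : ℕ} {ν u : Gl m} (hν : Strict ν) (hu : Upper u) :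
    Strict (ν * u) := by
  intro i j hij
  rw [Matrix.mul_apply]
  refine Finset.sum_eq_zero fun k _ => ?_
  rcases lt_or_ge i k with h | h
  · rw [hu k j (lt_of_le_of_lt hij h), mul_zero]
  · rw [hν i k h, zero_mul]

theorem upper_mul_strict {m : ℕ} {ν u : Gl m} (hν : Strict ν) (hu : Upper u) :
    Strict (u * ν) := by
  intro i j hij
  rw [Matrix.mul_apply]
  refine Finset.sum_eq_zero fun k _ => ?_
  rcases lt_or_ge k i with h | h
  · rw [hu i k h, zero_mul]
  · rw [hν k j (hij.trans h), mul_zero]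

theorem strict_conj {m : ℕ} {b : SLm m} (hb : Upper (mat b)) (ν : Nn m) :
    Strict (mat b⁻¹ * (matN ν * mat b)) :=
  upper_mul_strict (strict_mul_upper ν.2 hb) (upper_inv hb)

theorem trace_conj {m : ℕ} (b : SLm m) (y : Sl m) :
    (mat b⁻¹ * (matS y * mat b)).trace = 0 := by
  rw [Matrix.trace_mul_comm, mul_assoc, mat_mul_inv, mul_one]
  exact y.2

/-- The action `ν ↦ b⁻¹ ν b` of `b ∈ B` on `𝔫`. -/
def conjN {m : ℕ} (b : SLm m) (hb : Upper (mat b)) (ν : Nn m) : Nn m :=
  ⟨mat b⁻¹ * (matN ν * mat b), strict_conj hb ν⟩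

/-- The action `y ↦ b⁻¹ y b` on `𝔰𝔩_m`. -/
def conjS {m : ℕ} (b : SLm m) (y : Sl m) : Sl m :=
  ⟨mat b⁻¹ * (matS y * mat b), trace_conj b y⟩

theorem conjTot_add {m : ℕ} (b : SLm m) (hb : Upper (mat b)) (p q : Tot m) :
    ((conjS b (p + q).1, conjN b hb (p + q).2) : Tot m) =
      (conjS b p.1, conjN b hb p.2) + (conjS b q.1, conjN b hb q.2) := by
  refine Prod.ext (Subtype.ext ?_) (Subtype.ext ?_)
  · change mat b⁻¹ * ((matS p.1 + matS q.1) * mat b) =
      mat b⁻¹ * (matS p.1 * mat b) + mat b⁻¹ * (matS q.1 * mat b)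
    rw [add_mul, mul_add]
  · change mat b⁻¹ * ((matN p.2 + matN q.2) * mat b) =
      mat b⁻¹ * (matN p.2 * mat b) + mat b⁻¹ * (matN q.2 * mat b)
    rw [add_mul, mul_add]

theorem conjTot_smul {m : ℕ} (b : SLm m) (hb : Upper (mat b)) (c : ℂ) (p : Tot m) :
    ((conjS b (c • p).1, conjN b hb (c • p).2) : Tot m) =
      c • ((conjS b p.1, conjN b hb p.2) : Tot m) := by
  refine Prod.ext (Subtype.ext ?_) (Subtype.ext ?_)
  · change mat b⁻¹ * ((c • matS p.1) * mat b) = c • (mat b⁻¹ * (matS p.1 * mat b))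
    rw [smul_mul_assoc, mul_smul_comm]
  · change mat b⁻¹ * ((c • matN p.2) * mat b) = c • (mat b⁻¹ * (matN p.2 * mat b))
    rw [smul_mul_assoc, mul_smul_comm]

/-- The map `(y, μ) ↦ (b⁻¹ y b, b⁻¹ μ b)` of `𝔰𝔩_m × 𝔫`. -/
def conjTot {m : ℕ} (b : SLm m) (hb : Upper (mat b)) : Tot m →ₗ[ℂ] Tot m where
  toFun p := (conjS b p.1, conjN b hb p.2)
  map_add' := conjTot_add b hb
  map_smul' := conjTot_smul b hb

theorem conj_conj {m : ℕ} (b : SLm m) (x y : Gl m) :
    mat b⁻¹ * (x * y * mat b) = (mat b⁻¹ * (x * mat b)) * (mat b⁻¹ * (y * mat b)) := by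
  calc mat b⁻¹ * (x * y * mat b) = mat b⁻¹ * (x * 1 * y * mat b) := by rw [mul_one]
    _ = mat b⁻¹ * (x * (mat b * mat b⁻¹) * y * mat b) := by rw [mat_mul_inv]
    _ = (mat b⁻¹ * (x * mat b)) * (mat b⁻¹ * (y * mat b)) := by simp only [mul_assoc]

theorem orb_conj {m : ℕ} (b : SLm m) (hb : Upper (mat b)) (ν : Nn m) :
    OrbT ν ≤ (OrbT (conjN b hb ν)).comap (conjTot b hb) := by
  intro p hp
  refine ⟨upper_mul (upper_inv hb) (upper_mul hp.1 hb), ?_⟩
  change mat b⁻¹ * (matN p.2 * mat b) =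
    (mat b⁻¹ * (matN ν * mat b)) * (mat b⁻¹ * (matS p.1 * mat b)) -
    (mat b⁻¹ * (matS p.1 * mat b)) * (mat b⁻¹ * (matN ν * mat b))
  rw [hp.2, ← conj_conj, ← conj_conj, sub_mul, mul_sub]

/-- The map `(y, μ) ↦ (b⁻¹ y b, b⁻¹ μ b)` from the tangent space of `Ñ` at the class of `(g, ν)` to the one
at the class of `(g b, b⁻¹ ν b)` (the same point of `Ñ`). -/
def conjT {m : ℕ} (b : SLm m) (hb : Upper (mat b)) (ν : Nn m) :
    Tan ν →ₗ[ℂ] Tan (conjN b hb ν) :=
  (OrbT ν).mapQ (OrbT (conjN b hb ν)) (conjTot b hb) (orb_conj b hb ν)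

/-- The multiple `c ν`. -/
def scN {m : ℕ} (c : ℂ) (ν : Nn m) : Nn m := c • ν

theorem dilTot_add {m : ℕ} (c : ℂ) (p q : Tot m) :
    (((p + q).1, scN c (p + q).2) : Tot m) = (p.1, scN c p.2) + (q.1, scN c q.2) :=
  Prod.ext rfl (smul_add c p.2 q.2)

theorem dilTot_smul {m : ℕ} (c a : ℂ) (p : Tot m) :
    (((a • p).1, scN c (a • p).2) : Tot m) = a • ((p.1, scN c p.2) : Tot m) :=
  Prod.ext rfl (smul_comm c a p.2)

/-- The map `(y, μ) ↦ (y, c μ)` of `𝔰𝔩_m × 𝔫`. -/
def dilTot {m : ℕ} (c : ℂ) : Tot m →ₗ[ℂ] Tot m where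
  toFun p := (p.1, scN c p.2)
  map_add' := dilTot_add c
  map_smul' := dilTot_smul c

theorem orb_dil {m : ℕ} (c : ℂ) (ν : Nn m) : OrbT ν ≤ (OrbT (scN c ν)).comap (dilTot c) := by
  intro p hp
  refine ⟨hp.1, ?_⟩
  change c • matN p.2 = (c • matN ν) * matS p.1 - matS p.1 * (c • matN ν)
  rw [hp.2, smul_mul_assoc, mul_smul_comm, smul_sub]

/-- The derivative `(y, μ) ↦ (y, c μ)` of the dilation `(g, ν) ↦ (g, c ν)`. -/
def dilT {m : ℕ} (c : ℂ) (ν : Nn m) : Tan ν →ₗ[ℂ] Tan (scN c ν) :=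
  (OrbT ν).mapQ (OrbT (scN c ν)) (dilTot c) (orb_dil c ν)

/-- A map from `SL_m × 𝔫` to a vector space is polynomial if all its coordinates (its compositions
with linear functionals) are polynomials in the entries of `g` and `ν`. -/
def IsPolyMap {m : ℕ} {V : Type} [AddCommGroup V] [Module ℂ V] (p : SLm m → Nn m → V) : Prop :=
  ∀ l : V →ₗ[ℂ] ℂ, ∃ P : MvPolynomial ((Fin m × Fin m) ⊕ (Fin m × Fin m)) ℂ,
    ∀ (g : SLm m) (ν : Nn m), l (p g ν) = MvPolynomial.eval
      (Sum.elim (fun q => mat g q.1 q.2) (fun q => matN ν q.1 q.2)) P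

/-- The global sections of `⋀^j T Ñ` (the `j`-polyvector fields on the Springer resolution
`Ñ = SL_m ×_B 𝔫`): functions on `SL_m × 𝔫` with values in the exterior powers of the tangent spaces of
`Ñ`, which are regular and `B`-equivariant. -/
structure PolyField (m j : ℕ) where
  /-- the value at the class of `(g, ν)` -/
  val : SLm m → (ν : Nn m) → Wedge j (Tan ν)
  /-- regularity: there is a polynomial lift -/
  regular : ∃ p : SLm m → Nn m → Wedge j (Tot m), IsPolyMap p ∧
    ∀ g ν, val g ν = wmap j (proj ν) (p g ν)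
  /-- equivariance under the Borel subgroup -/
  equivariant : ∀ (b : SLm m) (hb : Upper (mat b)) (g : SLm m) (ν : Nn m),
    val (g * b) (conjN b hb ν) = wmap j (conjT b hb ν) (val g ν)

/-- `s` has weight `k` for the action of `ℂ^*` by dilations, normalised such that linear functions on
the fibres have weight `2` and constant vertical vector fields have weight `-2`. -/
def PolyField.HasWeight {m j : ℕ} (s : PolyField m j) (k : ℤ) : Prop :=
  ∀ c : ℂ, c ≠ 0 → ∀ (g : SLm m) (ν : Nn m),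
    s.val g (scN (c ^ 2) ν) = c ^ k • wmap j (dilT (c ^ 2) ν) (s.val g ν)

theorem isPolyMap_translate {m : ℕ} {V : Type} [AddCommGroup V] [Module ℂ V]
    {p : SLm m → Nn m → V} (hp : IsPolyMap p) (x : SLm m) :
    IsPolyMap fun g ν => p (x⁻¹ * g) ν := by
  intro l
  obtain ⟨P, hP⟩ := hp l
  refine ⟨MvPolynomial.bind₁ (Sum.elim
    (fun q => ∑ k, MvPolynomial.C (mat x⁻¹ q.1 k) *
      MvPolynomial.X (Sum.inl (k, q.2))) (fun q => MvPolynomial.X (Sum.inr q))) P,
    fun g ν => ?_⟩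
  rw [hP, ← MvPolynomial.coe_aeval_eq_eval, ← MvPolynomial.coe_aeval_eq_eval]
  change _ = MvPolynomial.aeval _ (MvPolynomial.bind₁ _ P)
  rw [MvPolynomial.aeval_bind₁]
  change MvPolynomial.aeval _ P = _
  congr 1
  refine MvPolynomial.algHom_ext fun q => ?_
  rw [MvPolynomial.aeval_X, MvPolynomial.aeval_X]
  rcases q with q | q
  · have h1 : mat (x⁻¹ * g) = mat x⁻¹ * mat g := rfl
    simp only [Sum.elim_inl, map_sum, map_mul, MvPolynomial.aeval_C, MvPolynomial.aeval_X,
      h1, Matrix.mul_apply, Algebra.algebraMap_self, RingHom.id_apply]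
  · simp only [Sum.elim_inr, MvPolynomial.aeval_X]

theorem PolyField.regular_translate {m j : ℕ} (x : SLm m) (s : PolyField m j) :
    ∃ p : SLm m → Nn m → Wedge j (Tot m), IsPolyMap p ∧
      ∀ g ν, s.val (x⁻¹ * g) ν = wmap j (proj ν) (p g ν) := by
  obtain ⟨p, hp, h⟩ := s.regular
  exact ⟨fun g ν => p (x⁻¹ * g) ν, isPolyMap_translate hp x, fun g ν => h _ _⟩

theorem PolyField.equivariant_translate {m j : ℕ} (x : SLm m) (s : PolyField m j) (b : SLm m)
    (hb : Upper (mat b)) (g : SLm m) (ν : Nn m) :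
    s.val (x⁻¹ * (g * b)) (conjN b hb ν) = wmap j (conjT b hb ν) (s.val (x⁻¹ * g) ν) := by
  rw [← mul_assoc]
  exact s.equivariant b hb _ ν

/-- The action of `x ∈ SL_m` on polyvector fields induced by the left translation
`(g, ν) ↦ (x g, ν)` of `Ñ = SL_m ×_B 𝔫`: `(x s) (g, ν) = s (x⁻¹ g, ν)` (the derivative of a left
translation is the identity of `Tan ν`). -/
def PolyField.translate {m j : ℕ} (x : SLm m) (s : PolyField m j) : PolyField m j where
  val g ν := s.val (x⁻¹ * g) ν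
  regular := s.regular_translate x
  equivariant := s.equivariant_translate x

theorem PolyField.ext_val {m j : ℕ} {s t : PolyField m j} (h : ∀ g ν, s.val g ν = t.val g ν) :
    s = t := by
  have hval : s.val = t.val := funext fun g => funext fun ν => h g ν
  cases s
  cases t
  simp only at hval
  subst hval
  rfl

theorem PolyField.translate_one {m j : ℕ} (s : PolyField m j) : s.translate 1 = s :=
  PolyField.ext_val fun g ν => by
    change s.val (1⁻¹ * g) ν = _
    rw [inv_one, one_mul]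

theorem PolyField.translate_mul {m j : ℕ} (x y : SLm m) (s : PolyField m j) :
    s.translate (x * y) = (s.translate y).translate x :=
  PolyField.ext_val fun g ν => by
    change s.val ((x * y)⁻¹ * g) ν = s.val (y⁻¹ * (x⁻¹ * g)) ν
    rw [_root_.mul_inv_rev, mul_assoc]

end MP3s
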