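import Pool.Agent.Lib.MP_3b3418_ag.Stm
import Pool.Agent.Lib.MP_3b3418_ag.Defs

/-!
# Comparison of the definitions of `Stm.lean` and `Defs.lean`
-/

set_option autoImplicit false

namespace MP3s

open Matrix

/-- `𝔫` in the two conventions. -/
def dN {m : ℕ} (ν : MP3b.nil m) : Nn m := ⟨ν.1, ν.2⟩

/-- `𝔫` in the two conventions. -/
def uN {m : ℕ} (ν : Nn m) : MP3b.nil m := ⟨ν.1, ν.2⟩

theorem dN_uN {m : ℕ} (ν : Nn m) : dN (uN ν) = ν := rfl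

/-- `𝔰𝔩_m` in the two conventions. -/
def dS {m : ℕ} (y : MP3b.slm m) : Sl m := ⟨y.1, y.2⟩

/-- `𝔰𝔩_m` in the two conventions. -/
def uS {m : ℕ} (y : Sl m) : MP3b.slm m := ⟨y.1, y.2⟩

/-- The identity map. -/
def uT (m : ℕ) : Tot m →ₗ[ℂ] MP3b.slm m × MP3b.nil m where
  toFun p := (uS p.1, uN p.2)
  map_add' _ _ := rfl
  map_smul' _ _ := rfl

/-- The identity map. -/
def dT (m : ℕ) : MP3b.slm m × MP3b.nil m →ₗ[ℂ] Tot m where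
  toFun p := (dS p.1, dN p.2)
  map_add' _ _ := rfl
  map_smul' _ _ := rfl

theorem orb_uT {m : ℕ} (ν : MP3b.nil m) : OrbT (dN ν) ≤ (MP3b.orb m ν).comap (uT m) :=
  fun _ hp => ⟨hp.1, hp.2⟩

theorem orb_dT {m : ℕ} (ν : MP3b.nil m) : MP3b.orb m ν ≤ (OrbT (dN ν)).comap (dT m) :=
  fun _ hp => ⟨hp.1, hp.2⟩

/-- The identification of the tangent spaces. -/
def uQ {m : ℕ} (ν : MP3b.nil m) : Tan (dN ν) →ₗ[ℂ] MP3b.TS m ν :=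
  (OrbT (dN ν)).mapQ (MP3b.orb m ν) (uT m) (orb_uT ν)

/-- The identification of the tangent spaces. -/
def dQ {m : ℕ} (ν : MP3b.nil m) : MP3b.TS m ν →ₗ[ℂ] Tan (dN ν) :=
  (MP3b.orb m ν).mapQ (OrbT (dN ν)) (dT m) (orb_dT ν)

theorem dQ_uQ {m : ℕ} (ν : MP3b.nil m) : dQ ν ∘ₗ uQ ν = LinearMap.id := by
  refine LinearMap.ext fun x => ?_
  obtain ⟨p, rfl⟩ := Submodule.Quotient.mk_surjective (OrbT (dN ν)) x
  rfl

theorem uQ_proj {m : ℕ} (ν : MP3b.nil m) :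
    uQ ν ∘ₗ proj (dN ν) = (MP3b.orb m ν).mkQ ∘ₗ uT m := rfl

theorem uQ_conjT {m : ℕ} (b : SLm m) (hb : Upper (mat b)) (ν : MP3b.nil m) :
    (uQ (MP3b.cjN b hb ν) ∘ₗ conjT b hb (dN ν) : Tan (dN ν) →ₗ[ℂ] MP3b.TS m (MP3b.cjN b hb ν)) =
      MP3b.tcj b hb ν ∘ₗ uQ ν := by
  refine LinearMap.ext fun x => ?_
  obtain ⟨p, rfl⟩ := Submodule.Quotient.mk_surjective (OrbT (dN ν)) x
  rfl

theorem uQ_dilT {m : ℕ} (c : ℂ) (ν : MP3b.nil m) :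
    (uQ (c • ν) ∘ₗ dilT c (dN ν) : Tan (dN ν) →ₗ[ℂ] MP3b.TS m (c • ν)) =
      MP3b.tdil c ν ∘ₗ uQ ν := by
  refine LinearMap.ext fun x => ?_
  obtain ⟨p, rfl⟩ := Submodule.Quotient.mk_surjective (OrbT (dN ν)) x
  rfl

end MP3s
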