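import Pool.Agent.Lib.MP_3b3418_ag.StmB

/-!
# A polyvector field of `Stm.lean` gives one of `Defs.lean`
-/

set_option autoImplicit false

namespace MP3s

open Matrix

theorem wmap_comp {V W X : Type} [AddCommGroup V] [Module ℂ V] [AddCommGroup W] [Module ℂ W]
    [AddCommGroup X] [Module ℂ X] (j : ℕ) (f : V →ₗ[ℂ] W) (f' : W →ₗ[ℂ] X) (x : Wedge j V) :
    wmap j (f' ∘ₗ f) x = wmap j f' (wmap j f x) :=
  LinearMap.congr_fun (exteriorPower.map_comp f f') x

theorem wmap_smul {V W : Type} [AddCommGroup V] [Module ℂ V] [AddCommGroup W] [Module ℂ W]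
    (j : ℕ) (f : V →ₗ[ℂ] W) (c : ℂ) (x : Wedge j V) : wmap j f (c • x) = c • wmap j f x :=
  (exteriorPower.map j f).map_smul c x

theorem wmap_id {V : Type} [AddCommGroup V] [Module ℂ V] (j : ℕ) (x : Wedge j V) :
    wmap j (LinearMap.id : V →ₗ[ℂ] V) x = x := by
  have h : exteriorPower.map j (LinearMap.id : V →ₗ[ℂ] V) = LinearMap.id := exteriorPower.map_id
  exact LinearMap.congr_fun h x

theorem wmap_uQ_injective {m j : ℕ} (ν : MP3b.nil m) :
    Function.Injective (wmap j (uQ ν)) := by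
  intro a b hab
  have h1 := congrArg (wmap j (dQ ν)) hab
  rw [← wmap_comp, ← wmap_comp, dQ_uQ, wmap_id, wmap_id] at h1
  exact h1

/-- The values in the conventions of `Defs.lean`. -/
noncomputable def uval {m j : ℕ} (s : PolyField m j) (g : SLm m) (ν : MP3b.nil m) :
    Wedge j (MP3b.TS m ν) := wmap j (uQ ν) (s.val g (dN ν))

theorem uval_regular {m j : ℕ} (s : PolyField m j) :
    ∃ p : SLm m → MP3b.nil m → Wedge j (MP3b.slm m × MP3b.nil m),
      (∀ l : Wedge j (MP3b.slm m × MP3b.nil m) →ₗ[ℂ] ℂ,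
        ∃ P : MvPolynomial ((Fin m × Fin m) ⊕ (Fin m × Fin m)) ℂ, ∀ (g : SLm m) (ν : MP3b.nil m),
          l (p g ν) = MvPolynomial.eval
            (Sum.elim (fun q => (g : Gl m) q.1 q.2) (fun q => (ν : Gl m) q.1 q.2)) P) ∧
      ∀ g ν, uval s g ν = wmap j (MP3b.orb m ν).mkQ (p g ν) := by
  obtain ⟨p, hp, h⟩ := s.regular
  refine ⟨fun g ν => wmap j (uT m) (p g (dN ν)), fun l => ?_, fun g ν => ?_⟩
  · let L : Wedge j (Tot m) →ₗ[ℂ] Wedge j (MP3b.slm m × MP3b.nil m) :=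
      exteriorPower.map j (uT m)
    obtain ⟨P, hP⟩ := hp (l ∘ₗ L)
    exact ⟨P, fun g ν => hP g (dN ν)⟩
  · unfold uval
    rw [h, ← wmap_comp, ← wmap_comp, uQ_proj]

theorem uval_equivariant {m j : ℕ} (s : PolyField m j) (b : SLm m) (hb : Upper (mat b))
    (g : SLm m) (ν : MP3b.nil m) :
    uval s (g * b) (MP3b.cjN b hb ν) = wmap j (MP3b.tcj b hb ν) (uval s g ν) := by
  let U : Tan (conjN b hb (dN ν)) →ₗ[ℂ] MP3b.TS m (MP3b.cjN b hb ν) := uQ (MP3b.cjN b hb ν)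
  have h1 : uval s (g * b) (MP3b.cjN b hb ν) =
      wmap j U (s.val (g * b) (conjN b hb (dN ν))) := rfl
  have h2 : U ∘ₗ conjT b hb (dN ν) = MP3b.tcj b hb ν ∘ₗ uQ ν := uQ_conjT b hb ν
  rw [h1, s.equivariant b hb g (dN ν), ← wmap_comp, h2, wmap_comp]
  rfl

theorem uval_weight {m j : ℕ} (s : PolyField m j) (k : ℤ) (h : s.HasWeight k) (c : ℂ) (hc : c ≠ 0)
    (g : SLm m) (ν : MP3b.nil m) :
    uval s g (c ^ 2 • ν) = c ^ k • wmap j (MP3b.tdil (c ^ 2) ν) (uval s g ν) := by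
  let U : Tan (scN (c ^ 2) (dN ν)) →ₗ[ℂ] MP3b.TS m (c ^ 2 • ν) := uQ (c ^ 2 • ν)
  have h1 : uval s g (c ^ 2 • ν) = wmap j U (s.val g (scN (c ^ 2) (dN ν))) := rfl
  have h2 : U ∘ₗ dilT (c ^ 2) (dN ν) = MP3b.tdil (c ^ 2) ν ∘ₗ uQ ν := uQ_dilT (c ^ 2) ν
  rw [h1, h c hc g (dN ν), wmap_smul, ← wmap_comp, h2, wmap_comp]
  rfl

/-- The polyvector field in the conventions of `Defs.lean`. -/
noncomputable def toVec {m j : ℕ} (s : PolyField m j) : MP3b.PolyVec m j where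
  val := uval s
  regular := uval_regular s
  equivariant := uval_equivariant s

theorem toVec_hasWeight {m j : ℕ} (s : PolyField m j) (k : ℤ) (h : s.HasWeight k) :
    (toVec s).HasWeight k := uval_weight s k h

theorem val_eq {m j : ℕ} (s : PolyField m j) (g g' : SLm m)
    (h : ∀ ν : MP3b.nil m, (toVec s).val g ν = (toVec s).val g' ν) (ν : Nn m) :
    s.val g ν = s.val g' ν := wmap_uQ_injective (uN ν) (h (uN ν))

end MP3s
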